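import Pool.Agent.Work.MP_215640_nt.S.FirstPass

/-!
SECTION H, definitions: the uniform parity word theorem `WordThm` (proved in the folder `Q`) and the
logarithmic mass `Lg` of a set in the window `[e^t, e^(4t))`.
-/

set_option autoImplicit false

namespace Pool.Agent.Work.MP_215640_nt

open Finset Polynomial Filter

/-- the size of the constants for words of length `k` -/
def K2 (c k : ℕ) : ℕ := 2 ^ (c * k ^ 2)

/-- the exponents of the levels `1, ..., k - 1` are larger than `1` -/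
def Posw (w : ℕ → Bool) (k : ℕ) : Prop := ∀ j, 1 ≤ j → j < k → 1 < cc w j

open Classical in
/-- indicator of: the parities of the first `k` levels are those of the word -/
noncomputable def ind (w : ℕ → Bool) (k n : ℕ) : ℝ := if Pat w w (range k) n then 1 else 0

/-- the uniform parity word theorem -/
def WordThm : Prop :=
  ∃ c : ℕ, ∀ (k : ℕ) (w : ℕ → Bool) (N : ℕ) (f : ℕ → ℝ) (δ : ℝ), 1 ≤ k → Posw w k →
    2 ^ K2 c k ≤ N → (∀ n, 0 ≤ f n) → (∀ n, f n ≤ 1) → 0 ≤ δ →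
    (∀ h : ℕ, (h : ℝ) ≤ (N : ℝ) ^ ((1 / 2 : ℝ) ^ (k + 2)) →
      ∑ n ∈ Ico N (2 * N), |f (n + h) - f n| ≤ δ * N) →
    (1 / 2) ^ k * ∑ n ∈ Ico N (2 * N), f n - (3 * δ + (N : ℝ) ^ (-(1 / (K2 c k : ℝ)))) * N ≤
      ∑ n ∈ Ico N (2 * N), f n * ind w k n

open Classical in
/-- sum of `1 / n` over the elements `n` of `G` with `e^t ≤ n < e^(4t)` -/
noncomputable def Lg (G : Set ℕ) (t : ℝ) : ℝ :=
  ∑ n ∈ (range ⌈Real.exp (4 * t)⌉₊).filter (fun n : ℕ => n ∈ G ∧ Real.exp t ≤ n), (1 : ℝ) / n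

theorem Lg_nonneg (G : Set ℕ) (t : ℝ) : 0 ≤ Lg G t := by
  unfold Lg
  exact sum_nonneg fun n _ => by positivity

theorem Lg_mono {G G' : Set ℕ} (h : G ⊆ G') (t : ℝ) : Lg G t ≤ Lg G' t := by
  classical
  unfold Lg
  apply sum_le_sum_of_subset_of_nonneg
  · intro n hn
    rw [mem_filter] at hn ⊢
    exact ⟨hn.1, h hn.2.1, hn.2.2⟩
  · intro n _ _
    positivity

theorem K2_pos (c k : ℕ) : 0 < K2 c k := by unfold K2; positivity

theorem K2_add (c d k : ℕ) : K2 (c + d) k = K2 c k * K2 d k := by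
  unfold K2
  rw [← pow_add]
  congr 1
  ring

theorem K2_le {c c' k k' : ℕ} (h : c ≤ c') (h' : k ≤ k') : K2 c k ≤ K2 c' k' := by
  unfold K2
  exact Nat.pow_le_pow_right (by norm_num) (Nat.mul_le_mul h (Nat.pow_le_pow_left h' 2))

theorem two_pow_le_K2 {c k a : ℕ} (hk : 1 ≤ k) (h : a ≤ c) : 2 ^ (a * k) ≤ K2 c k := by
  unfold K2
  apply Nat.pow_le_pow_right (by norm_num)
  calc a * k ≤ c * k := Nat.mul_le_mul_right _ h
    _ ≤ c * k ^ 2 := Nat.mul_le_mul_left _ (by nlinarith)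

/-- the facts on first passage words below `1` -/
theorem fp_one {K : ℕ} {p : ℕ × Finset ℕ} (h : p ∈ FP 1 K) :
    1 ≤ p.1 ∧ p.1 ≤ K ∧ Posw (wd p.2) p.1 ∧ 1 / 2 ≤ cc (wd p.2) p.1 ∧ cc (wd p.2) p.1 < 1 := by
  classical
  obtain ⟨h1, h2, h3, h4, h5, h6⟩ := fp_spec h le_rfl
  refine ⟨h1, h2, ?_, h3, h4⟩
  intro j hj1 hj2
  unfold FP at h
  rw [mem_filter] at h
  have h7 := h.2.2.2 j hj2
  have h8 := cc_ne_nat (wd p.2) hj1 1
  rw [Nat.cast_one] at h8
  exact lt_of_le_of_ne h7 (Ne.symm h8)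

/-- an exponent smaller than `1` is at most `1 - 2^(-k)` -/
theorem cc_le_of_lt_one (w : ℕ → Bool) (k : ℕ) (h : cc w k < 1) : cc w k ≤ 1 - (1 / 2) ^ k := by
  rw [cc_eq] at h ⊢
  generalize ((range k).filter (fun i => w i = true)).card = a at h ⊢
  have h2 : (0 : ℝ) < 2 ^ k := by positivity
  rw [div_lt_one h2] at h
  have h3 : (3 : ℝ) ^ a + 1 ≤ 2 ^ k := by
    have : (3 : ℕ) ^ a < 2 ^ k := by exact_mod_cast h
    exact_mod_cast this
  rw [div_le_iff₀ h2]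
  have h4 : (1 - (1 / 2 : ℝ) ^ k) * 2 ^ k = 2 ^ k - 1 := by
    rw [sub_mul, ← mul_pow]
    norm_num
  rw [h4]
  linarith

end Pool.Agent.Work.MP_215640_nt
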