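import Pool.Agent.Work.MP_215640_nt.U.Renew
import Pool.Agent.Work.MP_215640_nt.U.Grow
import Pool.Agent.Work.MP_215640_nt.U.BaseM

/-!
MODULE FINAL. The two theorems.

`lg_full`: if all `n < e^(4t)` are in `G` then `Lg G t ≥ 4t - log ⌈e^t⌉₊ ≥ 3t - exp(-t)`
(`harmonic_window` with `p = ⌈e^t⌉₊`, `X = e^(4t)`, `log(e^t + 1) ≤ t + e^(-t)`).

`renew_u`: `u t = Lg G t / t` satisfies the hypothesis of `grow` (divide `renew` by `t ≥ 1`:
`(1/cc) Lg G (cc t)/t = u (cc t)`).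

`s1_main`: `G = {n | ∃ k, J^[k] n ≤ C}`, `4 t0 = log C`; `u t ≥ 3 - exp(-t)/t ≥ b := 3 (1 - exp(-t0/2))` on
`[t0/2, t0]`, so by `grow` `Lg G t ≥ b (1 - 2/sqrt(log t0)) t` for all `t ≥ t0`. Sum over the disjoint windows
`t = log x/4^(i+1)`, `i < I`, inside `[1, x)` (`I` fixed, large): `∑_i 1/4^(i+1) = (1 - 4^(-I))/3`. And
`(1 - exp(-t0/2)) (1 - 2/sqrt(log t0)) (1 - 4^(-I)) ≥ 1 - 3/sqrt(log log C)` for `I` large
(`log t0 = log log C - log 4`).

`s2_main`: `G = {n | ∃ k, J^[k] n = m}` contains a number `≥ 2` (`m = 1`: `J 2 = 1`, private lemma `J_two`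
of `S/QFinal.lean`), `base_m` gives `Lg G t ≥ b0`, so `u ≥ b := b0/t0` on `[t0/2, t0]` and
`b ≥ exp(-sqrt t0/2)` for large `t0`; `grow`, then the single window `t = log x/4`.
-/

set_option autoImplicit false

namespace Pool.Agent.Work.MP_215640_nt

open Finset Polynomial Filter N55eda7c2

theorem lg_full (G : Set ℕ) (t : ℝ) (ht : 0 ≤ t)
    (hG : ∀ n : ℕ, (n : ℝ) < Real.exp (4 * t) → n ∈ G) :
    3 * t - Real.exp (-t) ≤ Lg G t := by
  classical
  have he1 : 1 ≤ Real.exp t := Real.one_le_exp ht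
  have hceil : (⌈Real.exp t⌉₊ : ℝ) ≤ Real.exp t + 1 := (Nat.ceil_lt_add_one (by positivity)).le
  have hceil0 : (0 : ℝ) < ⌈Real.exp t⌉₊ := by
    have := Nat.le_ceil (Real.exp t)
    linarith
  have hlog : Real.log (⌈Real.exp t⌉₊ : ℝ) ≤ t + Real.exp (-t) := by
    refine (Real.log_le_log hceil0 hceil).trans ?_
    have h1 : Real.exp t + 1 = Real.exp t * (1 + Real.exp (-t)) := by
      rw [mul_add, mul_one, ← Real.exp_add, add_neg_cancel, Real.exp_zero]
    have h2 : 0 < Real.exp (-t) := Real.exp_pos _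
    rw [h1, Real.log_mul (Real.exp_pos _).ne' (by positivity), Real.log_exp]
    have h3 := Real.log_le_sub_one_of_pos (show 0 < 1 + Real.exp (-t) by positivity)
    linarith
  rcases le_or_gt (⌈Real.exp t⌉₊ : ℝ) (Real.exp (4 * t)) with h | h
  · have hp1 : 1 ≤ ⌈Real.exp t⌉₊ := by
      have : 0 < ⌈Real.exp t⌉₊ := by exact_mod_cast hceil0
      omega
    have h1 := harmonic_window ⌈Real.exp t⌉₊ (Real.exp (4 * t)) hp1 h
    rw [Real.log_exp] at h1
    have h2 : ∑ n ∈ Ico ⌈Real.exp t⌉₊ ⌈Real.exp (4 * t)⌉₊, (1 : ℝ) / n ≤ Lg G t := by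
      unfold Lg
      apply sum_le_sum_of_subset_of_nonneg
      · intro n hn
        rw [mem_Ico] at hn
        rw [mem_filter, mem_range]
        refine ⟨hn.2, hG n (Nat.lt_ceil.1 hn.2), Nat.ceil_le.1 hn.1⟩
      · intro n _ _
        positivity
    linarith
  · have h1 : 4 * t ≤ Real.log (⌈Real.exp t⌉₊ : ℝ) := by
      rw [← Real.log_exp (4 * t)]
      exact Real.log_le_log (Real.exp_pos _) h.le
    have h2 := Lg_nonneg G t
    linarith

/-- the normalised mass satisfies the hypothesis of `grow` -/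
private theorem fn_renew {c : ℕ} {G : Set ℕ}
    (H : ∀ (K : ℕ) (t : ℝ), 1 ≤ K → (K2 c K : ℝ) ≤ t →
      ∑ p ∈ FP 1 K, (1 / 2) ^ p.1 / cc (wd p.2) p.1 * Lg G (cc (wd p.2) p.1 * t)
        - Real.exp (-(t / K2 c K)) ≤ Lg G t) (K : ℕ) (t : ℝ) (hK : 1 ≤ K) (ht : (K2 c K : ℝ) ≤ t) :
    ∑ p ∈ FP 1 K, (1 / 2) ^ p.1 * (Lg G (cc (wd p.2) p.1 * t) / (cc (wd p.2) p.1 * t)) -
      Real.exp (-(t / K2 c K)) ≤ Lg G t / t := by
  have h1 : (1 : ℝ) ≤ K2 c K := by exact_mod_cast K2_pos c K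
  have ht0 : 0 < t := by linarith
  rw [le_div_iff₀ ht0, sub_mul, sum_mul]
  have h2 := H K t hK ht
  have h3 : ∑ p ∈ FP 1 K, (1 / 2) ^ p.1 * (Lg G (cc (wd p.2) p.1 * t) /
      (cc (wd p.2) p.1 * t)) * t =
      ∑ p ∈ FP 1 K, (1 / 2) ^ p.1 / cc (wd p.2) p.1 * Lg G (cc (wd p.2) p.1 * t) := by
    refine sum_congr rfl fun p _ => ?_
    have := cc_pos (wd p.2) p.1
    field_simp
  rw [h3]
  have h4 : 0 < Real.exp (-(t / K2 c K)) := Real.exp_pos _
  nlinarith

open Classical in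
/-- disjoint windows -/
private theorem fn_windows (G : Set ℕ) (x : ℕ) (hx : 1 ≤ x) (I : ℕ) :
    ∑ i ∈ range I, Lg G (Real.log x / 4 ^ (i + 1)) ≤
      ∑ n ∈ (Icc 1 x).filter (fun n => n ∈ G), (1 : ℝ) / n := by
  have hx0 : (0 : ℝ) < x := by exact_mod_cast hx
  obtain ⟨X, hX⟩ : ∃ X : ℝ, X = Real.log x := ⟨_, rfl⟩
  have hX0 : 0 ≤ X := by
    rw [hX]; exact Real.log_nonneg (by exact_mod_cast hx)
  have hexpX : Real.exp X = x := by rw [hX, Real.exp_log hx0]
  rw [← hX]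
  have key : ∀ I : ℕ, ∑ i ∈ range I, Lg G (X / 4 ^ (i + 1)) ≤
      ∑ n ∈ (range x).filter (fun n : ℕ => n ∈ G ∧ Real.exp (X / 4 ^ I) ≤ n), (1 : ℝ) / n := by
    intro I
    induction I with
    | zero =>
      rw [range_zero, sum_empty]
      exact sum_nonneg fun n _ => by positivity
    | succ I ih =>
      rw [sum_range_succ]
      have h4 : 4 * (X / 4 ^ (I + 1)) = X / 4 ^ I := by
        rw [pow_succ]; field_simp
      have hle : X / 4 ^ (I + 1) ≤ X / 4 ^ I := by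
        rw [← h4]
        have : 0 ≤ X / 4 ^ (I + 1) := by positivity
        linarith
      have hle2 : X / 4 ^ I ≤ X := div_le_self hX0 (one_le_pow₀ (by norm_num))
      have hdisj : Disjoint
          ((range x).filter (fun n : ℕ => n ∈ G ∧ Real.exp (X / 4 ^ I) ≤ n))
          ((range ⌈Real.exp (4 * (X / 4 ^ (I + 1)))⌉₊).filter
            (fun n : ℕ => n ∈ G ∧ Real.exp (X / 4 ^ (I + 1)) ≤ n)) := by
        rw [disjoint_left]
        intro n h1 h2
        rw [mem_filter] at h1 h2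
        rw [mem_range, Nat.lt_ceil, h4] at h2
        linarith [h1.2.2, h2.1]
      have hunion : (∑ n ∈ (range x).filter (fun n : ℕ => n ∈ G ∧ Real.exp (X / 4 ^ I) ≤ n),
          (1 : ℝ) / n) + Lg G (X / 4 ^ (I + 1)) ≤
          ∑ n ∈ (range x).filter (fun n : ℕ => n ∈ G ∧ Real.exp (X / 4 ^ (I + 1)) ≤ n),
            (1 : ℝ) / n := by
        unfold Lg
        rw [← sum_union hdisj]
        apply sum_le_sum_of_subset_of_nonneg
        · intro n hn
          rw [mem_union, mem_filter, mem_filter, mem_range, mem_range, Nat.lt_ceil, h4] at hn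
          rw [mem_filter, mem_range]
          rcases hn with ⟨h1, h2, h3⟩ | ⟨h1, h2, h3⟩
          · exact ⟨h1, h2, (Real.exp_le_exp.2 hle).trans h3⟩
          · refine ⟨?_, h2, h3⟩
            have h5 : (n : ℝ) < x := by
              rw [← hexpX]
              exact h1.trans_le (Real.exp_le_exp.2 hle2)
            exact_mod_cast h5
        · intro n _ _
          positivity
      linarith
  refine (key I).trans ?_
  apply sum_le_sum_of_subset_of_nonneg
  · intro n hn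
    rw [mem_filter, mem_range] at hn
    rw [mem_filter, mem_Icc]
    refine ⟨⟨?_, hn.1.le⟩, hn.2.1⟩
    have h1 : (1 : ℝ) ≤ n := le_trans (Real.one_le_exp (by positivity)) hn.2.2
    exact_mod_cast h1
  · intro n _ _
    positivity

open Classical in
/-- almost all orbits reach a bounded set, up to a proportion tending to `0` with the bound -/
theorem s1_main (hW : WordThm) :
    ∀ᶠ C : ℝ in atTop, ∀ᶠ x : ℕ in atTop,
      (1 - 3 / Real.sqrt (Real.log (Real.log C))) * Real.log x ≤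
        ∑ n ∈ (Icc 1 x).filter (fun n : ℕ => ∃ k : ℕ, ((jugglerStep^[k] n : ℕ) : ℝ) ≤ C),
          (1 : ℝ) / n := by
  obtain ⟨c, hren⟩ := renew hW
  have htend : Tendsto (fun C : ℝ => Real.log C / 4) atTop atTop :=
    Real.tendsto_log_atTop.atTop_div_const (by norm_num)
  have hLt : Tendsto (fun C : ℝ => Real.log (Real.log C)) atTop atTop :=
    Real.tendsto_log_atTop.comp Real.tendsto_log_atTop
  filter_upwards [htend.eventually (grow c), hLt.eventually_ge_atTop 200,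
    htend.eventually_ge_atTop 2, eventually_gt_atTop 0] with C hgrow hL ht2 hC0
  obtain ⟨L, hLdef⟩ : ∃ L : ℝ, L = Real.log (Real.log C) := ⟨_, rfl⟩
  obtain ⟨t0, ht0⟩ : ∃ t0 : ℝ, t0 = Real.log C / 4 := ⟨_, rfl⟩
  rw [← hLdef] at hL ⊢
  rw [← ht0] at hgrow ht2
  obtain ⟨G, hGdef⟩ : ∃ G : Set ℕ, G = {n | ∃ k : ℕ, ((jugglerStep^[k] n : ℕ) : ℝ) ≤ C} :=
    ⟨_, rfl⟩
  have hG : ∀ n, jugglerStep n ∈ G → n ∈ G := by
    intro n hn
    rw [hGdef] at hn ⊢
    obtain ⟨k, hk⟩ := hn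
    exact ⟨k + 1, by rw [Function.iterate_succ_apply]; exact hk⟩
  have hGC : ∀ n : ℕ, (n : ℝ) ≤ C → n ∈ G := by
    intro n hn
    rw [hGdef]
    exact ⟨0, hn⟩
  have hlogC : Real.log C = 4 * t0 := by rw [ht0]; ring
  have hexpC : Real.exp (4 * t0) = C := by rw [← hlogC, Real.exp_log hC0]
  obtain ⟨b, hb⟩ : ∃ b : ℝ, b = 3 - Real.exp (-(t0 / 2)) := ⟨_, rfl⟩
  have hE0 : 0 < Real.exp (-(t0 / 2)) := Real.exp_pos _
  have hE1 : Real.exp (-(t0 / 2)) ≤ 1 := by
    rw [Real.exp_le_one_iff]; linarith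
  have hgr := hgrow b (fun t => Lg G t / t) (by
    have : Real.exp (-(Real.sqrt t0 / 2)) ≤ 1 := by
      rw [Real.exp_le_one_iff]
      have := Real.sqrt_nonneg t0
      linarith
    linarith) (by linarith)
    (fun K t hK ht => fn_renew (fun K t hK ht => hren K t G hK ht hG) K t hK ht) (by
    intro t h1 h2
    have ht1 : 1 ≤ t := by linarith
    have h3 := lg_full G t (by linarith) (fun n hn => by
      apply hGC
      refine hn.le.trans ?_
      rw [← hexpC]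
      apply Real.exp_le_exp.2
      linarith)
    rw [le_div_iff₀ (by linarith)]
    have h4 : Real.exp (-t) ≤ Real.exp (-(t0 / 2)) := by
      apply Real.exp_le_exp.2; linarith
    rw [hb]
    nlinarith)
  -- numerics
  have hlogC0 : 0 < Real.log C := by rw [hlogC]; linarith
  have hexpL : Real.exp L = 4 * t0 := by
    rw [hLdef, Real.exp_log hlogC0, hlogC]
  have hlogt0 : Real.log t0 = L - Real.log 4 := by
    have : t0 = Real.exp L / 4 := by rw [hexpL]; ring
    rw [this, Real.log_div (Real.exp_pos _).ne' (by norm_num), Real.log_exp]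
  obtain ⟨r, hr⟩ : ∃ r : ℝ, r = Real.sqrt L := ⟨_, rfl⟩
  have hr2 : r ^ 2 = L := by rw [hr]; exact Real.sq_sqrt (by linarith)
  have hr0 : 0 ≤ r := by rw [hr]; exact Real.sqrt_nonneg _
  have hr14 : 14 ≤ r := by
    by_contra hcon
    push Not at hcon
    nlinarith
  have hlog4 : Real.log 4 ≤ 2 := by
    have h1 : Real.log 4 = 2 * Real.log 2 := by
      have : (4 : ℝ) = 2 ^ 2 := by norm_num
      rw [this, Real.log_pow]; norm_num
    have := Real.log_two_lt_d9
    linarith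
  have hβ : 2 / Real.sqrt (Real.log t0) ≤ 5 / 2 / r := by
    have h1 : 4 / 5 * r ≤ Real.sqrt (Real.log t0) := by
      apply Real.le_sqrt_of_sq_le
      rw [hlogt0]
      nlinarith
    have h2 : 0 < 4 / 5 * r := by positivity
    calc 2 / Real.sqrt (Real.log t0) ≤ 2 / (4 / 5 * r) :=
          div_le_div_of_nonneg_left (by norm_num) h2 h1
      _ = 5 / 2 / r := by field_simp; norm_num
  have hα : Real.exp (-(t0 / 2)) ≤ 3 / 4 / r := by
    have h1 : t0 / 2 + 1 ≤ Real.exp (t0 / 2) := Real.add_one_le_exp _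
    have h2 : L + 1 ≤ Real.exp L := Real.add_one_le_exp _
    have h3 : L / 8 ≤ Real.exp (t0 / 2) := by linarith
    rw [Real.exp_neg, inv_eq_one_div, div_div, div_le_div_iff₀ (Real.exp_pos _) (by positivity)]
    nlinarith
  obtain ⟨I, hI⟩ : ∃ I : ℕ, (1 / 4 : ℝ) ^ I < 1 / 4 / r :=
    exists_pow_lt_of_lt_one (by positivity) (by norm_num)
  have hlogx : Tendsto (fun x : ℕ => Real.log (x : ℝ)) atTop atTop :=
    Real.tendsto_log_atTop.comp tendsto_natCast_atTop_atTop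
  filter_upwards [hlogx.eventually_ge_atTop (4 ^ I * t0), eventually_ge_atTop 1] with x hx1 hx2
  have hX0 : 0 ≤ Real.log (x : ℝ) := Real.log_nonneg (by exact_mod_cast hx2)
  obtain ⟨β, hβdef⟩ : ∃ β : ℝ, β = 2 / Real.sqrt (Real.log t0) := ⟨_, rfl⟩
  rw [← hβdef] at hβ hgr
  have hwin := fn_windows G x hx2 I
  have hterm : ∀ i ∈ range I, b * (1 - β) * (Real.log x / 4 ^ (i + 1)) ≤
      Lg G (Real.log x / 4 ^ (i + 1)) := by
    intro i hi
    rw [mem_range] at hi
    have h4i : (4 : ℝ) ^ (i + 1) ≤ 4 ^ I := pow_le_pow_right₀ (by norm_num) hi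
    have h1 : t0 ≤ Real.log x / 4 ^ (i + 1) := by
      rw [le_div_iff₀ (by positivity)]
      have : t0 * 4 ^ (i + 1) ≤ t0 * 4 ^ I := mul_le_mul_of_nonneg_left h4i (by linarith)
      linarith
    have h2 := hgr _ h1
    rw [le_div_iff₀ (by linarith)] at h2
    exact h2
  have hsum := (sum_le_sum hterm).trans hwin
  have hgeo : ∑ i ∈ range I, b * (1 - β) * (Real.log x / 4 ^ (i + 1)) =
      b * (1 - β) * Real.log x * ((1 - (1 / 4) ^ I) / 3) := by
    have h1 : ∀ i, b * (1 - β) * (Real.log x / 4 ^ (i + 1)) =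
        b * (1 - β) * Real.log x * (1 / 4) * (1 / 4) ^ i := by
      intro i
      rw [pow_succ, one_div, inv_pow]
      field_simp
    rw [sum_congr rfl fun i _ => h1 i, ← mul_sum, geom_sum_eq (by norm_num)]
    ring
  rw [hgeo] at hsum
  have hset : ∑ n ∈ (Icc 1 x).filter (fun n => n ∈ G), (1 : ℝ) / n =
      ∑ n ∈ (Icc 1 x).filter (fun n : ℕ => ∃ k : ℕ, ((jugglerStep^[k] n : ℕ) : ℝ) ≤ C),
        (1 : ℝ) / n := by
    apply sum_congr _ fun _ _ => rfl
    ext n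
    rw [mem_filter, mem_filter, hGdef]
    rfl
  rw [← hset]
  refine le_trans ?_ hsum
  obtain ⟨γ, hγ⟩ : ∃ γ : ℝ, γ = (1 / 4) ^ I := ⟨_, rfl⟩
  rw [← hγ] at hI ⊢
  have hγ0 : 0 < γ := by rw [hγ]; positivity
  have hβ0 : 0 ≤ β := by rw [hβdef]; positivity
  obtain ⟨α, hαdef⟩ : ∃ α : ℝ, α = Real.exp (-(t0 / 2)) := ⟨_, rfl⟩
  rw [← hαdef] at hα hE0 hE1 hb
  have hrinv : 1 / r ≤ 1 / 14 := one_div_le_one_div_of_le (by norm_num) hr14
  have hrinv0 : 0 < 1 / r := by positivity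
  obtain ⟨ρ, hρ⟩ : ∃ ρ : ℝ, ρ = 1 / r := ⟨_, rfl⟩
  have e1 : 5 / 2 / r = 5 / 2 * ρ := by rw [hρ]; ring
  have e2 : 3 / 4 / r = 3 / 4 * ρ := by rw [hρ]; ring
  have e3 : 1 / 4 / r = 1 / 4 * ρ := by rw [hρ]; ring
  have e4 : 3 / Real.sqrt L = 3 * ρ := by rw [hρ, ← hr]; ring
  rw [e1] at hβ
  rw [e2] at hα
  rw [e3] at hI
  rw [e4]
  rw [← hρ] at hrinv hrinv0
  have hkey : 1 - 3 * ρ ≤ b * (1 - β) * ((1 - γ) / 3) := by
    rw [hb]
    have f1 : 1 - α / 3 - β ≤ (1 - α / 3) * (1 - β) := by nlinarith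
    have f2 : 0 ≤ 1 - α / 3 - β := by linarith
    have f3 : 1 - α / 3 - β - γ ≤ (1 - α / 3 - β) * (1 - γ) := by nlinarith
    have f4 : 0 ≤ 1 - γ := by linarith
    have f5 : (1 - α / 3 - β) * (1 - γ) ≤ (1 - α / 3) * (1 - β) * (1 - γ) :=
      mul_le_mul_of_nonneg_right f1 f4
    have f6 : (3 - α) * (1 - β) * ((1 - γ) / 3) = (1 - α / 3) * (1 - β) * (1 - γ) := by ring
    rw [f6]
    linarith
  calc (1 - 3 * ρ) * Real.log x ≤ b * (1 - β) * ((1 - γ) / 3) * Real.log x :=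
        mul_le_mul_of_nonneg_right hkey hX0
    _ = b * (1 - β) * Real.log x * ((1 - γ) / 3) := by ring

private theorem fn_J_two : jugglerStep 2 = 1 := by
  unfold jugglerStep
  rw [if_pos even_two, Nat.floor_eq_iff (by positivity)]
  constructor
  · have : (1 : ℝ) ≤ ((2 : ℕ) : ℝ) ^ (1 / 2 : ℝ) :=
      Real.one_le_rpow (by norm_num) (by norm_num)
    simpa using this
  · have : ((2 : ℕ) : ℝ) ^ (1 / 2 : ℝ) < ((2 : ℕ) : ℝ) ^ (1 : ℝ) :=
      Real.rpow_lt_rpow_of_exponent_lt (by norm_num) (by norm_num)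
    rw [Real.rpow_one] at this
    refine this.trans_le ?_
    norm_num

open Classical in
/-- every `m ≥ 1` is reached from a set of positive lower logarithmic density -/
theorem s2_main (hW : WordThm) (m : ℕ) (hm : 1 ≤ m) :
    ∃ c : ℝ, 0 < c ∧ ∀ᶠ x : ℕ in atTop, c * Real.log x ≤
      ∑ n ∈ (Icc 1 x).filter (fun n : ℕ => ∃ k : ℕ, jugglerStep^[k] n = m), (1 : ℝ) / n := by
  obtain ⟨c, hren⟩ := renew hW
  obtain ⟨G, hGdef⟩ : ∃ G : Set ℕ, G = {n | ∃ k : ℕ, jugglerStep^[k] n = m} := ⟨_, rfl⟩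
  have hG : ∀ n, jugglerStep n ∈ G → n ∈ G := by
    intro n hn
    rw [hGdef] at hn ⊢
    obtain ⟨k, hk⟩ := hn
    exact ⟨k + 1, by rw [Function.iterate_succ_apply]; exact hk⟩
  obtain ⟨g, hg, hg2⟩ : ∃ g ∈ G, 2 ≤ g := by
    rw [hGdef]
    rcases eq_or_lt_of_le hm with h1 | h1
    · refine ⟨2, ⟨1, ?_⟩, le_refl _⟩
      rw [Function.iterate_one, fn_J_two, h1]
    · exact ⟨m, ⟨0, rfl⟩, h1⟩
  obtain ⟨b0, T1, hb0, hbase⟩ := base_m G hG g hg hg2
  -- choice of `t0`
  have hpoly : Tendsto (fun t : ℝ => t * Real.exp (-(Real.sqrt t / 2))) atTop (nhds 0) := by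
    have h1 : Tendsto (fun y : ℝ => y ^ 2 * Real.exp (-y)) atTop (nhds 0) :=
      Real.tendsto_pow_mul_exp_neg_atTop_nhds_zero 2
    have h2 : Tendsto (fun t : ℝ => Real.sqrt t / 2) atTop atTop :=
      Real.tendsto_sqrt_atTop.atTop_div_const (by norm_num)
    have h3 := (h1.comp h2).const_mul 4
    rw [mul_zero] at h3
    refine h3.congr' ?_
    filter_upwards [eventually_ge_atTop 0] with t ht
    simp only [Function.comp_apply, div_pow, Real.sq_sqrt ht]
    ring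
  have hall := (((((grow c).and (hpoly.eventually (gt_mem_nhds hb0))).and
    (eventually_ge_atTop (2 * T1))).and (eventually_ge_atTop (b0 / 3))).and
    (Real.tendsto_log_atTop.eventually_ge_atTop 16)).and (eventually_ge_atTop (2 : ℝ))
  obtain ⟨t0, ⟨⟨⟨⟨hgrow, hexp⟩, hT1⟩, hb3⟩, hlog16⟩, ht2⟩ := hall.exists
  have ht0 : 0 < t0 := by linarith
  obtain ⟨b, hb⟩ : ∃ b : ℝ, b = b0 / t0 := ⟨_, rfl⟩
  have hbpos : 0 < b := by rw [hb]; positivity
  have hgr := hgrow b (fun t => Lg G t / t) (by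
    rw [hb, le_div_iff₀ ht0]
    have h1 : t0 * Real.exp (-(Real.sqrt t0 / 2)) < b0 := hexp
    linarith) (by
    rw [hb, div_le_iff₀ ht0]
    linarith)
    (fun K t hK ht => fn_renew (fun K t hK ht => hren K t G hK ht hG) K t hK ht) (by
    intro t h1 h2
    have ht1 : 1 ≤ t := by linarith
    have h3 := hbase t (by linarith)
    rw [le_div_iff₀ (by linarith), hb]
    have h4 : b0 / t0 * t ≤ b0 := by
      rw [div_mul_eq_mul_div, div_le_iff₀ ht0]
      nlinarith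
    linarith)
  have hfac : 1 / 2 ≤ 1 - 2 / Real.sqrt (Real.log t0) := by
    have h1 : 4 ≤ Real.sqrt (Real.log t0) := by
      apply Real.le_sqrt_of_sq_le
      linarith
    have h2 : 2 / Real.sqrt (Real.log t0) ≤ 2 / 4 :=
      div_le_div_of_nonneg_left (by norm_num) (by norm_num) h1
    linarith
  refine ⟨b / 8, by positivity, ?_⟩
  have hlogx : Tendsto (fun x : ℕ => Real.log (x : ℝ)) atTop atTop :=
    Real.tendsto_log_atTop.comp tendsto_natCast_atTop_atTop
  filter_upwards [hlogx.eventually_ge_atTop (4 * t0), eventually_ge_atTop 1] with x hx1 hx2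
  have hwin := fn_windows G x hx2 1
  rw [sum_range_one] at hwin
  have h4 : Real.log (x : ℝ) / 4 ^ (0 + 1) = Real.log x / 4 := by norm_num
  rw [h4] at hwin
  have h5 := hgr (Real.log x / 4) (by linarith)
  rw [le_div_iff₀ (by linarith)] at h5
  have hset : ∑ n ∈ (Icc 1 x).filter (fun n => n ∈ G), (1 : ℝ) / n =
      ∑ n ∈ (Icc 1 x).filter (fun n : ℕ => ∃ k : ℕ, jugglerStep^[k] n = m), (1 : ℝ) / n := by
    apply sum_congr _ fun _ _ => rfl
    ext n
    rw [mem_filter, mem_filter, hGdef]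
    rfl
  rw [← hset]
  refine le_trans ?_ (h5.trans hwin)
  have hX : 0 ≤ Real.log (x : ℝ) := by linarith
  have h6 : b * (1 / 2) ≤ b * (1 - 2 / Real.sqrt (Real.log t0)) :=
    mul_le_mul_of_nonneg_left hfac hbpos.le
  nlinarith

open Classical in
/-- for every function `f` tending to infinity almost all orbits get below `f` -/
theorem s1_tao (hW : WordThm) (f : ℕ → ℝ) (hf : Tendsto f atTop atTop) :
    Tendsto (fun x : ℕ => (∑ n ∈ (Icc 1 x).filter
      (fun n : ℕ => ∃ k : ℕ, ((jugglerStep^[k] n : ℕ) : ℝ) < f n), (1 : ℝ) / n) / Real.log x)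
      atTop (nhds 1) := by
  have hlogx : Tendsto (fun x : ℕ => Real.log (x : ℝ)) atTop atTop :=
    Real.tendsto_log_atTop.comp tendsto_natCast_atTop_atTop
  rw [Metric.tendsto_nhds]
  intro ε hε
  -- choice of `C`
  have hsq : Tendsto (fun C : ℝ => 3 / Real.sqrt (Real.log (Real.log C))) atTop (nhds 0) := by
    have h1 : Tendsto (fun C : ℝ => Real.sqrt (Real.log (Real.log C))) atTop atTop :=
      Real.tendsto_sqrt_atTop.comp (Real.tendsto_log_atTop.comp Real.tendsto_log_atTop)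
    exact h1.const_div_atTop 3
  obtain ⟨C, hC1, hC2⟩ := ((s1_main hW).and
    (hsq.eventually (gt_mem_nhds (show 0 < ε / 3 by positivity)))).exists
  obtain ⟨n0, hn0⟩ := eventually_atTop.1 (hf.eventually_gt_atTop C)
  obtain ⟨D, hD⟩ : ∃ D : ℝ, D = ∑ n ∈ range n0, (1 : ℝ) / n := ⟨_, rfl⟩
  have hD0 : 0 ≤ D := by rw [hD]; exact sum_nonneg fun n _ => by positivity
  filter_upwards [hC1, hlogx.eventually_ge_atTop ((3 * (D + 1)) / ε),
    hlogx.eventually_gt_atTop 0, eventually_ge_atTop 1] with x hx1 hx2 hx3 hx4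
  obtain ⟨S, hS⟩ : ∃ S : ℝ, S = ∑ n ∈ (Icc 1 x).filter
      (fun n : ℕ => ∃ k : ℕ, ((jugglerStep^[k] n : ℕ) : ℝ) < f n), (1 : ℝ) / n := ⟨_, rfl⟩
  rw [← hS]
  have hup : S ≤ 1 + Real.log x := by
    have h1 : S ≤ ∑ n ∈ Icc 1 x, (1 : ℝ) / n := by
      rw [hS]
      exact sum_le_sum_of_subset_of_nonneg (filter_subset _ _) fun n _ _ => by positivity
    have h2 : ∑ n ∈ Icc 1 x, (1 : ℝ) / n ≤ 1 + Real.log x := by
      have h4 := harmonic_le_one_add_log x
      rw [harmonic_eq_sum_Icc] at h4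
      push_cast at h4
      simpa [one_div] using h4
    linarith
  have hlo : (1 - 3 / Real.sqrt (Real.log (Real.log C))) * Real.log x ≤ S + D := by
    refine hx1.trans ?_
    rw [hS, hD]
    have hsub : (Icc 1 x).filter (fun n : ℕ => ∃ k : ℕ, ((jugglerStep^[k] n : ℕ) : ℝ) ≤ C) ⊆
        (Icc 1 x).filter (fun n : ℕ => ∃ k : ℕ, ((jugglerStep^[k] n : ℕ) : ℝ) < f n) ∪
          range n0 := by
      intro n hn
      rw [mem_filter] at hn
      rw [mem_union, mem_filter, mem_range]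
      rcases lt_or_ge n n0 with h | h
      · exact Or.inr h
      · left
        obtain ⟨h1, k, hk⟩ := hn
        exact ⟨h1, k, hk.trans_lt (hn0 n h)⟩
    refine (sum_le_sum_of_subset_of_nonneg hsub fun n _ _ => by positivity).trans ?_
    have h5 := sum_union_inter (s₁ := (Icc 1 x).filter
      (fun n : ℕ => ∃ k : ℕ, ((jugglerStep^[k] n : ℕ) : ℝ) < f n)) (s₂ := range n0)
      (f := fun n : ℕ => (1 : ℝ) / n)
    have h6 : 0 ≤ ∑ n ∈ (Icc 1 x).filter
      (fun n : ℕ => ∃ k : ℕ, ((jugglerStep^[k] n : ℕ) : ℝ) < f n) ∩ range n0, (1 : ℝ) / n :=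
      sum_nonneg fun n _ => by positivity
    linarith
  rw [div_le_iff₀ hε] at hx2
  rw [Real.dist_eq, abs_lt]
  constructor
  · rw [lt_sub_iff_add_lt, lt_div_iff₀ hx3]
    have h7 : 3 / Real.sqrt (Real.log (Real.log C)) * Real.log x ≤ ε / 3 * Real.log x :=
      mul_le_mul_of_nonneg_right hC2.le hx3.le
    nlinarith
  · rw [sub_lt_iff_lt_add, div_lt_iff₀ hx3]
    nlinarith

end Pool.Agent.Work.MP_215640_nt
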