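import Pool.Agent.Work.MP_215640_nt.U.Psi

/-!
MODULE FIBRELG. The logarithmic mass of the preimage of `G` under `F w k`.

`harmonic_window`: `1/n ≥ log(n+1) - log n`; telescope from `p` to `⌈X⌉₊ ≥ X`.

`fibre_lg`: write `γ = 1/cc w k ∈ (1, 2]`, `γ ≥ 1 + 2^-k` (`cc_le_of_lt_one`), `b = e^(4 cc w k t)`. For
`v ∈ G`, `e^(cc w k t) ≤ v < b`, let `p`, `p'` be the numbers of `psi_exists` for `v` and `v + 1`: the fibre
`F w k n = v` is `[p, p')`, and `p ≥ v^γ ≥ e^t`. So the sum of `1/n` over the `n` in the window with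
`F w k n = v` is `≥ min(log p', 4t) - log p` (if `p' ≤ e^(4t)` or not, `harmonic_window`; trivial if
`p ≥ e^(4t)`), which is `≥ γ (log(v+1) - log v) - k v^(-γ) - γ [b < v + 1]/v` (`log p' ≥ γ log(v+1)`; if
`b < v + 1` then `4t - γ log v ≥ 0 ≥ γ (log(v+1) - log v) - γ/v`), and `log(v+1) - log v ≥ 1/v - 1/v^2`.
Sum over `v` (`Lg G (cc w k t)` is the sum of `1/v`; the last term occurs for at most one `v`, `v ≥ b - 1`):
`Lg {F w k n ∈ G} t ≥ γ Lg G (cc w k t) - ∑_{v ≥ V} (2/v^2 + k v^(-1-2^-k)) - 4/b`, `V = e^(t/2)`, and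
`∑_{v ≥ V} v^(-1-s) ≤ V^(-1-s) + V^(-s)/s ≤ (1 + 1/s) V^(-s)` for `s = 1`, `s = 2^-k`. All errors together
are `≤ 8 (k+1) (2^k + 1) exp(-t/2^(k+1)) ≤ exp(-t/K2 c k)` for `t ≥ K2 c k` and `c = 8` (say).
-/

set_option autoImplicit false

namespace Pool.Agent.Work.MP_215640_nt

open Finset Polynomial Filter

private theorem fl_log_step (n : ℕ) (hn : 1 ≤ n) :
    Real.log ((n : ℝ) + 1) - Real.log n ≤ 1 / n := by
  have h0 : (0 : ℝ) < n := by exact_mod_cast hn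
  rw [← Real.log_div (by positivity) h0.ne']
  have h1 := Real.log_le_sub_one_of_pos (show (0 : ℝ) < ((n : ℝ) + 1) / n by positivity)
  refine h1.trans (le_of_eq ?_)
  field_simp
  ring

private theorem fl_log_step' (n : ℕ) (hn : 1 ≤ n) :
    (1 : ℝ) / n - 1 / (n : ℝ) ^ 2 ≤ Real.log ((n : ℝ) + 1) - Real.log n := by
  have h0 : (0 : ℝ) < n := by exact_mod_cast hn
  rw [← Real.log_div (by positivity) h0.ne']
  have h1 := Real.one_sub_inv_le_log_of_pos (show (0 : ℝ) < ((n : ℝ) + 1) / n by positivity)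
  refine le_trans ?_ h1
  have h2 : 1 - (((n : ℝ) + 1) / n)⁻¹ = 1 / ((n : ℝ) + 1) := by
    field_simp
    ring
  rw [h2]
  have h3 : (1 : ℝ) / n - 1 / (n : ℝ) ^ 2 = (n - 1) / n ^ 2 := by
    field_simp
  rw [h3, div_le_div_iff₀ (by positivity) (by positivity)]
  nlinarith

theorem harmonic_window (p : ℕ) (X : ℝ) (hp : 1 ≤ p) (hX : (p : ℝ) ≤ X) :
    Real.log X - Real.log p ≤ ∑ n ∈ Ico p ⌈X⌉₊, (1 : ℝ) / n := by
  have hp0 : (0 : ℝ) < p := by exact_mod_cast hp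
  have h1 : ∀ m : ℕ, Real.log ((p + m : ℕ) : ℝ) - Real.log p ≤
      ∑ n ∈ Ico p (p + m), (1 : ℝ) / n := by
    intro m
    induction m with
    | zero => simp
    | succ m ih =>
      rw [← add_assoc, sum_Ico_succ_top (by omega)]
      have h2 := fl_log_step (p + m) (by omega)
      push_cast at h2 ih ⊢
      linarith
  have h2 : p ≤ ⌈X⌉₊ := by
    have := hX.trans (Nat.le_ceil X)
    exact_mod_cast this
  obtain ⟨m, hm⟩ := Nat.exists_eq_add_of_le h2
  have h3 := h1 m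
  rw [← hm] at h3
  have h4 : Real.log X ≤ Real.log (⌈X⌉₊ : ℝ) :=
    Real.log_le_log (by linarith) (Nat.le_ceil X)
  linarith

private theorem fl_fibre (w : ℕ → Bool) (k : ℕ) (hw : Posw w k) (hc1 : cc w k < 1)
    (hc2 : 1 / 2 ≤ cc w k) (t : ℝ) (v : ℕ) (hv : 1 ≤ v)
    (hv1 : Real.exp (cc w k * t) ≤ v) (hv2 : (v : ℝ) < Real.exp (4 * (cc w k * t)))
    (S : Finset ℕ) (hS : ∀ n : ℕ, F w k n = v → Real.exp t ≤ n → (n : ℝ) < Real.exp (4 * t) →
      n ∈ S) :
    1 / cc w k * (1 / v) - (2 / (v : ℝ) ^ 2 + k * (v : ℝ) ^ (-(1 / cc w k))) -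
      (if Real.exp (4 * (cc w k * t)) < v + 1 then (2 : ℝ) / v else 0) ≤ ∑ n ∈ S, (1 : ℝ) / n := by
  obtain ⟨c0, hc0⟩ : ∃ c0, c0 = cc w k := ⟨_, rfl⟩
  have hc0pos : 0 < c0 := by rw [hc0]; exact cc_pos w k
  obtain ⟨γ, hγ⟩ : ∃ γ, γ = 1 / c0 := ⟨_, rfl⟩
  have hγ0 : 0 < γ := by rw [hγ]; positivity
  have hγ2 : γ ≤ 2 := by
    rw [hγ, div_le_iff₀ hc0pos]; rw [← hc0] at hc2; linarith
  have hγc : γ * c0 = 1 := by rw [hγ]; field_simp
  obtain ⟨p, hp1, hp2, hp3, hp4⟩ := psi_exists w k hw v hv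
  obtain ⟨p', hp1', hp2', hp3', hp4'⟩ := psi_exists w k hw (v + 1) (by omega)
  rw [← hc0] at hv1 hv2 hp3 hp4 hp3' ⊢
  rw [← hγ] at hp3 hp4 hp3' ⊢
  have hv0 : (0 : ℝ) < v := by exact_mod_cast hv
  have hp0 : (0 : ℝ) < p := by exact_mod_cast hp1
  have hp0' : (0 : ℝ) < p' := by exact_mod_cast hp1'
  have hpp' : p ≤ p' := (hp2 p').1 ((Nat.le_succ v).trans ((hp2' p').2 le_rfl))
  have hpt : Real.exp t ≤ p := by
    refine le_trans ?_ hp3
    have h1 : Real.exp t = (Real.exp (c0 * t)) ^ γ := by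
      rw [← Real.exp_mul]
      congr 1
      calc t = (γ * c0) * t := by rw [hγc, one_mul]
        _ = c0 * t * γ := by ring
    rw [h1]
    exact Real.rpow_le_rpow (Real.exp_pos _).le hv1 hγ0.le
  have hlogv : γ * Real.log v ≤ 4 * t := by
    have h1 : Real.log v ≤ 4 * (c0 * t) := by
      rw [← Real.log_exp (4 * (c0 * t))]
      exact Real.log_le_log hv0 hv2.le
    calc γ * Real.log v ≤ γ * (4 * (c0 * t)) := mul_le_mul_of_nonneg_left h1 hγ0.le
      _ = (γ * c0) * (4 * t) := by ring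
      _ = 4 * t := by rw [hγc, one_mul]
  have hlogp' : γ * Real.log ((v : ℝ) + 1) ≤ Real.log p' := by
    have h1 : ((v : ℝ) + 1) ^ γ ≤ p' := by
      have := hp3'
      push_cast at this
      exact this
    have h2 := Real.log_le_log (by positivity) h1
    rwa [Real.log_rpow (by positivity)] at h2
  obtain ⟨X, hX⟩ : ∃ X : ℝ, X = min (p' : ℝ) (Real.exp (4 * t)) := ⟨_, rfl⟩
  have hX0 : 0 < X := by rw [hX]; exact lt_min hp0' (Real.exp_pos _)
  have hsum : Real.log X - Real.log p ≤ ∑ n ∈ S, (1 : ℝ) / n := by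
    rcases le_or_gt (p : ℝ) X with h | h
    · refine (harmonic_window p X hp1 h).trans ?_
      apply sum_le_sum_of_subset_of_nonneg
      · intro n hn
        rw [mem_Ico, Nat.lt_ceil] at hn
        have hn1 : (n : ℝ) < p' := hn.2.trans_le (by rw [hX]; exact min_le_left _ _)
        have hn2 : (n : ℝ) < Real.exp (4 * t) := hn.2.trans_le (by rw [hX]; exact min_le_right _ _)
        have hn1' : n < p' := by exact_mod_cast hn1
        apply hS n _ _ hn2
        · apply le_antisymm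
          · by_contra hcon
            have h3 : v + 1 ≤ F w k n := by omega
            have := (hp2' n).1 h3
            omega
          · exact (hp2 n).2 hn.1
        · refine hpt.trans ?_
          exact_mod_cast hn.1
      · intro n _ _
        positivity
    · have h1 : Real.log X ≤ Real.log p := Real.log_le_log hX0 h.le
      have h2 : 0 ≤ ∑ n ∈ S, (1 : ℝ) / n := sum_nonneg fun n _ => by positivity
      linarith
  refine le_trans ?_ hsum
  have hstep := fl_log_step' v hv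
  have hinv : 0 ≤ (1 : ℝ) / (v : ℝ) ^ 2 := by positivity
  have hmain : γ * (1 / v) - 2 / (v : ℝ) ^ 2 ≤
      γ * (Real.log ((v : ℝ) + 1) - Real.log v) := by
    have h1 := mul_le_mul_of_nonneg_left hstep hγ0.le
    have h2 : γ * (1 / (v : ℝ) ^ 2) ≤ 2 * (1 / (v : ℝ) ^ 2) :=
      mul_le_mul_of_nonneg_right hγ2 hinv
    have h3 : 2 * (1 / (v : ℝ) ^ 2) = 2 / (v : ℝ) ^ 2 := by ring
    nlinarith
  rcases le_total (p' : ℝ) (Real.exp (4 * t)) with h | h
  · rw [hX, min_eq_left h]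
    split_ifs
    · have : 0 < (2 : ℝ) / v := by positivity
      nlinarith
    · nlinarith
  · rw [hX, min_eq_right h, Real.log_exp]
    split_ifs with hb
    · have h5 : γ * (1 / (v : ℝ)) ≤ 2 / v := by
        have : γ * (1 / (v : ℝ)) ≤ 2 * (1 / v) :=
          mul_le_mul_of_nonneg_right hγ2 (by positivity)
        refine this.trans (le_of_eq ?_)
        ring
      have h6 : 0 ≤ (2 : ℝ) / (v : ℝ) ^ 2 := by positivity
      linarith
    · push Not at hb
      have h7 : γ * Real.log ((v : ℝ) + 1) ≤ 4 * t := by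
        have h1 : Real.log ((v : ℝ) + 1) ≤ 4 * (c0 * t) := by
          rw [← Real.log_exp (4 * (c0 * t))]
          exact Real.log_le_log (by positivity) hb
        calc γ * Real.log ((v : ℝ) + 1) ≤ γ * (4 * (c0 * t)) :=
              mul_le_mul_of_nonneg_left h1 hγ0.le
          _ = (γ * c0) * (4 * t) := by ring
          _ = 4 * t := by rw [hγc, one_mul]
      nlinarith

/-- numerics -/
private theorem fl_num (k : ℕ) (hk : 1 ≤ k) (t : ℝ) (ht : (K2 10 k : ℝ) ≤ t) :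
    ((k : ℝ) + 4) * (4 * t + 2) * Real.exp (-(t / 2 ^ (k + 1))) ≤ Real.exp (-(t / K2 10 k)) := by
  obtain ⟨q, hq⟩ : ∃ q : ℝ, q = 2 ^ (k + 1) := ⟨_, rfl⟩
  obtain ⟨y, hy⟩ : ∃ y : ℝ, y = 2 ^ k := ⟨_, rfl⟩
  have hqy : q = 2 * y := by rw [hq, hy, pow_succ]; ring
  have hy2 : 2 ≤ y := by
    rw [hy]
    calc (2 : ℝ) = 2 ^ 1 := by norm_num
      _ ≤ 2 ^ k := pow_le_pow_right₀ (by norm_num) hk
  have hky : (k : ℝ) ≤ y := by
    rw [hy]
    have : k ≤ 2 ^ k := Nat.lt_two_pow_self.le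
    exact_mod_cast this
  have hK : y ^ 10 ≤ K2 10 k := by
    unfold K2
    rw [hy, ← pow_mul]
    push_cast
    apply pow_le_pow_right₀ (by norm_num)
    nlinarith
  rw [← hq]
  obtain ⟨K, hKdef⟩ : ∃ K : ℝ, K = K2 10 k := ⟨_, rfl⟩
  rw [← hKdef] at ht hK ⊢
  have hq0 : 0 < q := by rw [hqy]; linarith
  have hy0 : 0 < y := by linarith
  have hy9 : (2 : ℝ) ^ 9 ≤ y ^ 9 := pow_le_pow_left₀ (by norm_num) hy2 9
  have hy7 : (2 : ℝ) ^ 7 ≤ y ^ 7 := pow_le_pow_left₀ (by norm_num) hy2 7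
  have hy10 : y ^ 10 = y * y ^ 9 := by ring
  have hK0 : 0 < K := by
    have : 0 < y ^ 10 := by positivity
    linarith
  have hK2q : 2 * q ≤ K := by
    rw [hqy]
    nlinarith
  obtain ⟨x, hx⟩ : ∃ x : ℝ, x = t / (2 * q) := ⟨_, rfl⟩
  have htx : t = 2 * q * x := by rw [hx]; field_simp
  have hxy : 32 * y ^ 2 ≤ x := by
    rw [hx, le_div_iff₀ (by positivity), hqy]
    have h1 : y ^ 10 = y ^ 3 * y ^ 7 := by ring
    have h2 : 0 < y ^ 3 := by positivity
    nlinarith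
  have hx64 : 128 ≤ x := by nlinarith
  have hx0 : 0 < x := by linarith
  have hexp : x ^ 4 / 24 ≤ Real.exp x := by
    have := Real.pow_div_factorial_le_exp x hx0.le 4
    simpa [Nat.factorial] using this
  have hpoly : ((k : ℝ) + 4) * (4 * t + 2) ≤ x ^ 4 / 24 := by
    have h1 : (k : ℝ) + 4 ≤ 3 * y := by linarith
    have h2 : 4 * t + 2 ≤ 17 * y * x := by
      rw [htx, hqy]
      nlinarith
    have h3 : ((k : ℝ) + 4) * (4 * t + 2) ≤ 3 * y * (17 * y * x) := by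
      apply mul_le_mul h1 h2 _ (by positivity)
      have : 0 ≤ t := by rw [htx]; positivity
      linarith
    refine h3.trans ?_
    have h4 : 3 * y * (17 * y * x) = 51 * y ^ 2 * x := by ring
    rw [h4, le_div_iff₀ (by norm_num)]
    have h5 : 51 * y ^ 2 * x * 24 ≤ 39 * x * x := by nlinarith
    have h6 : 39 * x * x ≤ x ^ 4 := by
      have : (39 : ℝ) ≤ x ^ 2 := by nlinarith
      nlinarith [mul_nonneg hx0.le hx0.le]
    linarith
  have hfin : Real.exp (-(t / K)) = Real.exp (-(t / q)) * Real.exp (t / q - t / K) := by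
    rw [← Real.exp_add]
    congr 1
    ring
  rw [hfin, mul_comm]
  apply mul_le_mul_of_nonneg_left _ (Real.exp_pos _).le
  refine hpoly.trans (hexp.trans ?_)
  apply Real.exp_le_exp.2
  have h7 : t / K ≤ t / (2 * q) := by
    apply div_le_div_of_nonneg_left _ (by positivity) hK2q
    rw [htx]; positivity
  have h8 : t / q = 2 * (t / (2 * q)) := by field_simp
  rw [hx]
  linarith

theorem fibre_lg :
    ∃ c : ℕ, ∀ (k : ℕ) (w : ℕ → Bool) (t : ℝ) (G : Set ℕ), 1 ≤ k → Posw w k →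
      cc w k < 1 → 1 / 2 ≤ cc w k → (K2 c k : ℝ) ≤ t →
      1 / cc w k * Lg G (cc w k * t) - Real.exp (-(t / K2 c k)) ≤ Lg {n | F w k n ∈ G} t := by
  classical
  refine ⟨10, fun k w t G hk hw hc1 hc2 ht => ?_⟩
  have ht1 : (1 : ℝ) ≤ t := by
    have : (1 : ℝ) ≤ K2 10 k := by exact_mod_cast K2_pos 10 k
    linarith
  obtain ⟨c0, hc0⟩ : ∃ c0, c0 = cc w k := ⟨_, rfl⟩
  have hc0pos : 0 < c0 := by rw [hc0]; exact cc_pos w k
  have hc2' : 1 / 2 ≤ c0 := by rw [hc0]; exact hc2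
  obtain ⟨A, hA⟩ : ∃ A, A = Real.exp (c0 * t) := ⟨_, rfl⟩
  obtain ⟨b, hb⟩ : ∃ b, b = Real.exp (4 * (c0 * t)) := ⟨_, rfl⟩
  obtain ⟨V, hV⟩ : ∃ V : Finset ℕ, V = (range ⌈b⌉₊).filter (fun n : ℕ => n ∈ G ∧ A ≤ n) := ⟨_, rfl⟩
  obtain ⟨big, hbig⟩ : ∃ big : Finset ℕ, big = (range ⌈Real.exp (4 * t)⌉₊).filter
    (fun n : ℕ => F w k n ∈ G ∧ Real.exp t ≤ n) := ⟨_, rfl⟩
  have hLgV : Lg G (cc w k * t) = ∑ v ∈ V, (1 : ℝ) / v := by
    unfold Lg
    rw [hV, hb, hA, hc0]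
  have hLgb : Lg {n | F w k n ∈ G} t = ∑ n ∈ big, (1 : ℝ) / n := by
    unfold Lg
    rw [hbig]
    apply sum_congr _ fun _ _ => rfl
    ext n; simp
  have hA1 : 1 ≤ A := by rw [hA]; exact Real.one_le_exp (by positivity)
  have hVmem : ∀ v ∈ V, 1 ≤ v ∧ v ∈ G ∧ A ≤ v ∧ (v : ℝ) < b := by
    intro v hv
    rw [hV, mem_filter, mem_range, Nat.lt_ceil] at hv
    refine ⟨?_, hv.2.1, hv.2.2, hv.1⟩
    have : (1 : ℝ) ≤ v := hA1.trans hv.2.2
    exact_mod_cast this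
  have hstep1 : ∑ v ∈ V, ∑ n ∈ big.filter (fun n => F w k n = v), (1 : ℝ) / n ≤
      ∑ n ∈ big, (1 : ℝ) / n := by
    apply sum_fiberwise_le_sum_of_sum_fiber_nonneg
    intro y _
    exact sum_nonneg fun n _ => by positivity
  have hstep2 : ∀ v ∈ V, 1 / c0 * (1 / v) - (2 / (v : ℝ) ^ 2 + k * (v : ℝ) ^ (-(1 / c0))) -
      (if b < v + 1 then (2 : ℝ) / v else 0) ≤
      ∑ n ∈ big.filter (fun n => F w k n = v), (1 : ℝ) / n := by
    intro v hv
    obtain ⟨h1, h2, h3, h4⟩ := hVmem v hv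
    rw [hb, hc0]
    rw [hA, hc0] at h3
    rw [hb, hc0] at h4
    apply fl_fibre w k hw hc1 hc2 t v h1 h3 h4
    intro n hn1 hn2 hn3
    rw [mem_filter, hbig, mem_filter, mem_range, Nat.lt_ceil]
    exact ⟨⟨hn3, by rw [hn1]; exact h2, hn2⟩, hn1⟩
  -- the last term
  have hb0 : 0 < b := by rw [hb]; exact Real.exp_pos _
  have hbt : Real.exp (2 * t) ≤ b := by
    rw [hb]; apply Real.exp_le_exp.2; nlinarith
  have hb2 : 2 ≤ b := by
    have h1 : (2 : ℝ) * t + 1 ≤ Real.exp (2 * t) := Real.add_one_le_exp _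
    linarith
  have hlast : ∑ v ∈ V, (if b < v + 1 then (2 : ℝ) / v else 0) ≤ 4 / b := by
    rw [← sum_filter]
    have hcard : (V.filter (fun v : ℕ => b < (v : ℝ) + 1)).card ≤ 1 := by
      rw [card_le_one]
      intro x hx y hy
      rw [mem_filter] at hx hy
      have hx4 := (hVmem x hx.1).2.2.2
      have hy4 := (hVmem y hy.1).2.2.2
      have h1 : (x : ℝ) < y + 1 := by linarith
      have h2 : (y : ℝ) < x + 1 := by linarith
      have h1' : x < y + 1 := by exact_mod_cast h1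
      have h2' : y < x + 1 := by exact_mod_cast h2
      omega
    have hterm : ∀ v ∈ V.filter (fun v : ℕ => b < (v : ℝ) + 1), (2 : ℝ) / v ≤ 4 / b := by
      intro v hv
      rw [mem_filter] at hv
      have hv1 := (hVmem v hv.1).1
      have hv0 : (0 : ℝ) < v := by exact_mod_cast hv1
      rw [div_le_div_iff₀ hv0 hb0]
      linarith [hv.2]
    calc ∑ v ∈ V.filter (fun v : ℕ => b < (v : ℝ) + 1), (2 : ℝ) / v
        ≤ (V.filter (fun v : ℕ => b < (v : ℝ) + 1)).card • (4 / b) := sum_le_card_nsmul _ _ _ hterm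
      _ ≤ 1 • (4 / b) := by
          apply nsmul_le_nsmul_left (by positivity) hcard
      _ = 4 / b := one_nsmul _
  -- the harmonic sum
  have hharm : ∑ v ∈ V, (1 : ℝ) / v ≤ 4 * t + 2 := by
    have hsub : V ⊆ Icc 1 ⌈b⌉₊ := by
      intro v hv
      obtain ⟨h1, _, _, h4⟩ := hVmem v hv
      rw [mem_Icc]
      refine ⟨h1, ?_⟩
      exact (Nat.lt_ceil.2 h4).le
    have h1 : ∑ v ∈ V, (1 : ℝ) / v ≤ ∑ v ∈ Icc 1 ⌈b⌉₊, (1 : ℝ) / v :=
      sum_le_sum_of_subset_of_nonneg hsub fun n _ _ => by positivity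
    have h2 : ∑ v ∈ Icc 1 ⌈b⌉₊, (1 : ℝ) / v ≤ 1 + Real.log ⌈b⌉₊ := by
      have h4 := harmonic_le_one_add_log ⌈b⌉₊
      rw [harmonic_eq_sum_Icc] at h4
      push_cast at h4
      simpa [one_div] using h4
    have h3 : Real.log (⌈b⌉₊ : ℝ) ≤ 1 + 4 * t := by
      have h5 : (⌈b⌉₊ : ℝ) ≤ 2 * b := by
        have := Nat.ceil_lt_add_one hb0.le
        linarith
      have hceil0 : (0 : ℝ) < ⌈b⌉₊ := by
        have := Nat.le_ceil b
        linarith
      have h6 := Real.log_le_log hceil0 h5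
      rw [Real.log_mul (by norm_num) hb0.ne', hb, Real.log_exp] at h6
      have h7 : Real.log 2 ≤ 1 := by
        have := Real.log_two_lt_d9
        linarith
      have h8 : 4 * (c0 * t) ≤ 4 * t := by
        rw [← hc0] at hc1
        nlinarith
      rw [hb]
      linarith
    linarith
  obtain ⟨E, hE⟩ : ∃ E : ℝ, E = Real.exp (-(t / 2 ^ (k + 1))) := ⟨_, rfl⟩
  obtain ⟨s, hs⟩ : ∃ s : ℝ, s = (1 / 2) ^ k := ⟨_, rfl⟩
  have hs0 : 0 < s := by rw [hs]; positivity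
  have hs1 : s ≤ 1 := by rw [hs]; exact pow_le_one₀ (by norm_num) (by norm_num)
  have hcs : c0 ≤ 1 - s := by rw [hc0, hs]; exact cc_le_of_lt_one w k hc1
  have hAs : A ^ (-s) ≤ E := by
    rw [hA, hE, ← Real.exp_mul]
    apply Real.exp_le_exp.2
    have h1 : t / 2 ^ (k + 1) = s * t / 2 := by
      rw [hs, pow_succ, one_div, inv_pow]; field_simp
    rw [h1]
    have h2 : s * (t / 2) ≤ s * (c0 * t) := by
      apply mul_le_mul_of_nonneg_left _ hs0.le
      nlinarith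
    nlinarith
  have hAinv : 1 / A ≤ E := by
    refine le_trans ?_ hAs
    rw [one_div, ← Real.rpow_neg_one]
    apply Real.rpow_le_rpow_of_exponent_le hA1
    linarith
  have herr : ∀ v ∈ V, 2 / (v : ℝ) ^ 2 + k * (v : ℝ) ^ (-(1 / c0)) ≤
      ((k : ℝ) + 2) * E * (1 / v) := by
    intro v hv
    obtain ⟨h1, _, h3, _⟩ := hVmem v hv
    have hv0 : (0 : ℝ) < v := by exact_mod_cast h1
    have hv1 : (1 : ℝ) ≤ v := by exact_mod_cast h1
    have e1 : 2 / (v : ℝ) ^ 2 ≤ 2 * E * (1 / v) := by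
      have h4 : (1 : ℝ) / v ≤ E := by
        refine le_trans ?_ hAinv
        exact one_div_le_one_div_of_le (by linarith) h3
      have h5 : 2 / (v : ℝ) ^ 2 = 2 * (1 / v) * (1 / v) := by
        field_simp
      rw [h5]
      apply mul_le_mul_of_nonneg_right _ (by positivity)
      linarith
    have e2 : (v : ℝ) ^ (-(1 / c0)) ≤ E * (1 / v) := by
      have h4 : (v : ℝ) ^ (-(1 / c0)) ≤ (v : ℝ) ^ (-s + -1) := by
        apply Real.rpow_le_rpow_of_exponent_le hv1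
        have h5 : 1 + s ≤ 1 / c0 := by
          rw [le_div_iff₀ hc0pos]
          nlinarith
        linarith
      refine h4.trans ?_
      rw [Real.rpow_add hv0, Real.rpow_neg_one, one_div]
      apply mul_le_mul_of_nonneg_right _ (by positivity)
      refine le_trans ?_ hAs
      exact Real.rpow_le_rpow_of_nonpos (by linarith) h3 (by linarith)
    have e3 : (k : ℝ) * (v : ℝ) ^ (-(1 / c0)) ≤ k * (E * (1 / v)) :=
      mul_le_mul_of_nonneg_left e2 (Nat.cast_nonneg _)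
    calc 2 / (v : ℝ) ^ 2 + k * (v : ℝ) ^ (-(1 / c0)) ≤ 2 * E * (1 / v) + k * (E * (1 / v)) :=
          add_le_add e1 e3
      _ = ((k : ℝ) + 2) * E * (1 / v) := by ring
  have hE0 : 0 < E := by rw [hE]; exact Real.exp_pos _
  have hsumerr : ∑ v ∈ V, (2 / (v : ℝ) ^ 2 + k * (v : ℝ) ^ (-(1 / c0))) ≤
      ((k : ℝ) + 2) * E * (4 * t + 2) := by
    calc ∑ v ∈ V, (2 / (v : ℝ) ^ 2 + k * (v : ℝ) ^ (-(1 / c0)))
        ≤ ∑ v ∈ V, ((k : ℝ) + 2) * E * (1 / v) := sum_le_sum herr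
      _ = ((k : ℝ) + 2) * E * ∑ v ∈ V, (1 : ℝ) / v := by rw [mul_sum]
      _ ≤ ((k : ℝ) + 2) * E * (4 * t + 2) :=
          mul_le_mul_of_nonneg_left hharm (by positivity)
  have hbE : 4 / b ≤ 2 * E * (4 * t + 2) := by
    have h1 : 1 / b ≤ E := by
      have h2 : A ≤ b := by
        rw [hA, hb]; apply Real.exp_le_exp.2; nlinarith
      exact (one_div_le_one_div_of_le (by linarith) h2).trans hAinv
    have h3 : 4 / b = 4 * (1 / b) := by ring
    rw [h3]
    nlinarith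
  have htotal : ∑ v ∈ V, (1 / c0 * (1 / v) - (2 / (v : ℝ) ^ 2 + k * (v : ℝ) ^ (-(1 / c0))) -
      (if b < v + 1 then (2 : ℝ) / v else 0)) ≤ ∑ n ∈ big, (1 : ℝ) / n :=
    (sum_le_sum hstep2).trans hstep1
  rw [sum_sub_distrib, sum_sub_distrib, ← mul_sum] at htotal
  have hnum := fl_num k hk t ht
  rw [← hE] at hnum
  rw [hLgV, hLgb, ← hc0]
  have hfin : ((k : ℝ) + 2) * E * (4 * t + 2) + 2 * E * (4 * t + 2) =
      ((k : ℝ) + 4) * (4 * t + 2) * E := by ring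
  linarith

end Pool.Agent.Work.MP_215640_nt
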