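import Pool.Agent.Work.MP_215640_nt.U.Word

/-!
MODULE PSI. The least `n` with `F w k n ≥ v`.

Induction on `k` (for all `v`); `k = 0`: `p = v`. Step: for `v ≥ 1` put `v' = ⌈v^(1/e)⌉₊`, `e = ex (w k)`;
`v ≤ F w (k+1) n = ⌊(F w k n)^e⌋₊` iff `v ≤ (F w k n)^e` iff `v^(1/e) ≤ F w k n` iff `v' ≤ F w k n`
(`Nat.le_floor_iff`, `Nat.ceil_le`). Take the `p` of `v'`. With `c = cc w k ≥ 1` (`k = 0` or `Posw`):
`p ≥ v'^(1/c) ≥ v^(1/(e c))`; `v' ≤ v^(1/e) + 1` gives `log v' ≤ (1/e) log v + v^(-1/e)`, so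
`log p ≤ (1/c) log v' + k v'^(-1/c) ≤ (1/(ec)) log v + (1/c) v^(-1/e) + k v^(-1/(ec))`, and
`(1/c) v^(-1/e) ≤ v^(-1/(ec))` as `c ≥ 1`, `v ≥ 1`.
-/

set_option autoImplicit false

namespace Pool.Agent.Work.MP_215640_nt

open Finset Polynomial Filter

theorem psi_exists (w : ℕ → Bool) (k : ℕ) (hw : Posw w k) (v : ℕ) (hv : 1 ≤ v) :
    ∃ p : ℕ, 1 ≤ p ∧ (∀ n : ℕ, v ≤ F w k n ↔ p ≤ n) ∧ (v : ℝ) ^ (1 / cc w k) ≤ p ∧
      Real.log p ≤ 1 / cc w k * Real.log v + k * (v : ℝ) ^ (-(1 / cc w k)) := by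
  induction k generalizing v with
  | zero =>
    refine ⟨v, hv, fun n => by rw [F_zero], ?_, ?_⟩
    · rw [cc_zero]; simp
    · rw [cc_zero]; simp
  | succ k ih =>
    have hw' : Posw w k := fun j h1 h2 => hw j h1 (Nat.lt_succ_of_lt h2)
    have he : 0 < ex (w k) := ex_pos _
    set e := ex (w k) with hedef
    have hc1 : 1 ≤ cc w k := by
      rcases Nat.eq_zero_or_pos k with rfl | hk
      · rw [cc_zero]
      · exact (hw k hk (Nat.lt_succ_self k)).le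
    have hv1 : (1 : ℝ) ≤ v := by exact_mod_cast hv
    have hv0 : (0 : ℝ) < v := by linarith
    have hc0 : 0 < cc w k := by linarith
    rw [cc_succ, ← hedef]
    set c := cc w k with hcdef
    have hx1 : (1 : ℝ) ≤ (v : ℝ) ^ (1 / e) := Real.one_le_rpow hv1 (by positivity)
    have hx0 : (0 : ℝ) < (v : ℝ) ^ (1 / e) := by linarith
    have hceil1 : (v : ℝ) ^ (1 / e) ≤ (⌈(v : ℝ) ^ (1 / e)⌉₊ : ℝ) := Nat.le_ceil _
    have hceil2 : (⌈(v : ℝ) ^ (1 / e)⌉₊ : ℝ) < (v : ℝ) ^ (1 / e) + 1 :=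
      Nat.ceil_lt_add_one hx0.le
    have hv'1 : 1 ≤ ⌈(v : ℝ) ^ (1 / e)⌉₊ := Nat.ceil_pos.2 hx0
    obtain ⟨p, hp1, hp2, hp3, hp4⟩ := ih hw' ⌈(v : ℝ) ^ (1 / e)⌉₊ hv'1
    set v' : ℕ := ⌈(v : ℝ) ^ (1 / e)⌉₊ with hv'def
    have hv'0 : (0 : ℝ) < v' := by exact_mod_cast hv'1
    have hexp : (v : ℝ) ^ (1 / (c * e)) = ((v : ℝ) ^ (1 / e)) ^ (1 / c) := by
      rw [← Real.rpow_mul hv0.le]
      congr 1
      field_simp
    have hexp' : (v : ℝ) ^ (-(1 / (c * e))) = ((v : ℝ) ^ (1 / e)) ^ (-(1 / c)) := by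
      rw [← Real.rpow_mul hv0.le]
      congr 1
      field_simp
    refine ⟨p, hp1, fun n => ?_, ?_, ?_⟩
    · rw [← hp2 n, F_succ, ← hedef, Nat.le_floor_iff (by positivity), hv'def, Nat.ceil_le, one_div,
        Real.rpow_inv_le_iff_of_pos hv0.le (Nat.cast_nonneg _) he]
    · rw [hexp]
      exact (Real.rpow_le_rpow hx0.le hceil1 (by positivity)).trans hp3
    · have h1 : Real.log v' ≤ 1 / e * Real.log v + (v : ℝ) ^ (-(1 / e)) := by
        have h2 : Real.log v' ≤ Real.log ((v : ℝ) ^ (1 / e) * (1 + (v : ℝ) ^ (-(1 / e)))) := by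
          apply Real.log_le_log hv'0
          rw [mul_add, mul_one, ← Real.rpow_add hv0, add_neg_cancel, Real.rpow_zero]
          exact hceil2.le
        have h3 : (0 : ℝ) < (v : ℝ) ^ (-(1 / e)) := Real.rpow_pos_of_pos hv0 _
        rw [Real.log_mul hx0.ne' (by positivity), Real.log_rpow hv0] at h2
        have h4 := Real.log_le_sub_one_of_pos (x := 1 + (v : ℝ) ^ (-(1 / e))) (by positivity)
        linarith
      have h5 : (v' : ℝ) ^ (-(1 / c)) ≤ (v : ℝ) ^ (-(1 / (c * e))) := by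
        rw [hexp']
        exact Real.rpow_le_rpow_of_nonpos hx0 hceil1 (by
          have : 0 < 1 / c := by positivity
          linarith)
      have h6 : 1 / c * (v : ℝ) ^ (-(1 / e)) ≤ (v : ℝ) ^ (-(1 / (c * e))) := by
        have h7 : 1 / c ≤ 1 := by
          rw [div_le_one hc0]; exact hc1
        have h8 : (v : ℝ) ^ (-(1 / e)) ≤ (v : ℝ) ^ (-(1 / (c * e))) := by
          apply Real.rpow_le_rpow_of_exponent_le hv1
          have : 1 / (c * e) ≤ 1 / e := by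
            apply one_div_le_one_div_of_le he
            nlinarith
          linarith
        have h9 : (0 : ℝ) < (v : ℝ) ^ (-(1 / e)) := Real.rpow_pos_of_pos hv0 _
        calc 1 / c * (v : ℝ) ^ (-(1 / e)) ≤ 1 * (v : ℝ) ^ (-(1 / e)) :=
              mul_le_mul_of_nonneg_right h7 h9.le
          _ ≤ _ := by rw [one_mul]; exact h8
      have h10 : 1 / c * Real.log v' ≤ 1 / c * (1 / e * Real.log v + (v : ℝ) ^ (-(1 / e))) :=
        mul_le_mul_of_nonneg_left h1 (by positivity)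
      have h11 : (k : ℝ) * (v' : ℝ) ^ (-(1 / c)) ≤ k * (v : ℝ) ^ (-(1 / (c * e))) :=
        mul_le_mul_of_nonneg_left h5 (Nat.cast_nonneg _)
      have h12 : 1 / c * (1 / e * Real.log v + (v : ℝ) ^ (-(1 / e)))
          = 1 / (c * e) * Real.log v + 1 / c * (v : ℝ) ^ (-(1 / e)) := by
        field_simp
      push_cast
      rw [add_mul, one_mul]
      linarith

end Pool.Agent.Work.MP_215640_nt
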