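import Pool.Agent.Work.MP_215640_nt.U.Window
import Pool.Agent.Work.MP_215640_nt.U.FibreLg

/-!
MODULE RENEW. The renewal inequality.

For `p ∈ FP 1 K` put `w = wd p.2`, `k = p.1` (`fp_one`). The sets
`S_p = {n | F w k n ∈ G ∧ Pat w w (range k) n}` are disjoint (`fp_unique`) subsets of `G`
(`J^[k] n = F w k n ∈ G` by `J_iter` (Walk), and `G` is closed under preimages), so
`∑_p Lg (S_p) t ≤ Lg G t`. By `word_window` (constant `c1`) and `fibre_lg` (constant `c2`)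
`Lg (S_p) t ≥ (1/2)^k (1/cc Lg G (cc t) - exp(-t/K2 c2 k)) - exp(-t/K2 c1 k)`. There are at most
`(K+1) 2^(K+1) ≤ 2^(2K+2)` words, and `2^(2K+3) exp(-t/K2 c' K) ≤ exp(-t/K2 c K)` for `t ≥ K2 c K`,
`c' = max c1 c2`, `c = 2 c' + 10`: with `q = K2 c' K ≥ 1`: `K2 c K ≥ q^2 K2 10 K` and
`t/q - t/K2 c K ≥ t/(2q) ≥ K2 10 K/2 ≥ 2K + 3`.
-/

set_option autoImplicit false

namespace Pool.Agent.Work.MP_215640_nt

open Finset Polynomial Filter N55eda7c2

private theorem rn_closed (G : Set ℕ) (hG : ∀ n, jugglerStep n ∈ G → n ∈ G) (k n : ℕ)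
    (h : jugglerStep^[k] n ∈ G) : n ∈ G := by
  induction k with
  | zero => exact h
  | succ k ih =>
    rw [Function.iterate_succ_apply'] at h
    exact ih (hG _ h)

private theorem rn_disj (K : ℕ) (t : ℝ) (G : Set ℕ) (hG : ∀ n, jugglerStep n ∈ G → n ∈ G) :
    ∑ p ∈ FP 1 K, Lg {n | F (wd p.2) p.1 n ∈ G ∧ Pat (wd p.2) (wd p.2) (range p.1) n} t ≤
      Lg G t := by
  classical
  obtain ⟨W, hW⟩ : ∃ W : Finset ℕ, W = (range ⌈Real.exp (4 * t)⌉₊).filter
    (fun n : ℕ => Real.exp t ≤ n) := ⟨_, rfl⟩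
  have hLg : ∀ S : Set ℕ, Lg S t = ∑ n ∈ W, if n ∈ S then (1 : ℝ) / n else 0 := by
    intro S
    unfold Lg
    rw [← sum_filter, hW, filter_filter]
    apply sum_congr _ fun _ _ => rfl
    ext n
    simp only [mem_filter]
    tauto
  rw [hLg G, sum_congr rfl fun p _ => hLg _, sum_comm]
  refine sum_le_sum fun n _ => ?_
  by_cases hex : ∃ p ∈ FP 1 K, n ∈ {n | F (wd p.2) p.1 n ∈ G ∧
      Pat (wd p.2) (wd p.2) (range p.1) n}
  · obtain ⟨p0, hp0, hn0⟩ := hex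
    rw [sum_eq_single p0]
    · rw [if_pos hn0]
      have hnG : n ∈ G := by
        obtain ⟨h1, h2⟩ := hn0
        have h3 := J_iter (wd p0.2) p0.1 n (fun j hj => h2 j (mem_range.2 hj)) p0.1 le_rfl
        apply rn_closed G hG p0.1 n
        rw [h3]
        exact h1
      rw [if_pos hnG]
    · intro p hp hne
      rw [if_neg]
      intro hn
      exact hne (fp_unique hp hp0 p.1 p0.1 n le_rfl le_rfl hn.2 hn0.2)
    · exact fun h => absurd hp0 h
  · push Not at hex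
    refine le_trans (le_of_eq (sum_eq_zero fun p hp => ?_)) ?_
    · rw [if_neg (hex p hp)]
    · split_ifs <;> positivity

private theorem rn_card (K : ℕ) : ((FP 1 K).card : ℝ) ≤ 2 ^ (2 * K + 2) := by
  classical
  have h1 : (FP 1 K).card ≤ (K + 1) * 2 ^ (K + 1) := by
    unfold FP
    refine (card_filter_le _ _).trans ?_
    rw [card_product, card_powerset, card_range]
  have h2 : K + 1 ≤ 2 ^ (K + 1) := (Nat.lt_two_pow_self (n := K + 1)).le
  have h3 : (FP 1 K).card ≤ 2 ^ (2 * K + 2) := by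
    calc (FP 1 K).card ≤ (K + 1) * 2 ^ (K + 1) := h1
      _ ≤ 2 ^ (K + 1) * 2 ^ (K + 1) := Nat.mul_le_mul_right _ h2
      _ = 2 ^ (2 * K + 2) := by rw [← pow_add]; congr 1; ring
  exact_mod_cast h3

private theorem rn_num (c' K : ℕ) (hK : 1 ≤ K) (t : ℝ) (ht : (K2 (2 * c' + 10) K : ℝ) ≤ t) :
    2 ^ (2 * K + 3) * Real.exp (-(t / K2 c' K)) ≤ Real.exp (-(t / K2 (2 * c' + 10) K)) := by
  obtain ⟨q, hq⟩ : ∃ q : ℝ, q = K2 c' K := ⟨_, rfl⟩
  obtain ⟨z, hz⟩ : ∃ z : ℝ, z = K2 10 K := ⟨_, rfl⟩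
  have hq1 : 1 ≤ q := by rw [hq]; exact_mod_cast K2_pos c' K
  have hKK : (K2 (2 * c' + 10) K : ℝ) = q * q * z := by
    rw [hq, hz, K2_add, two_mul, K2_add]
    push_cast
    ring
  have hz1 : 2 * (2 * (K : ℝ) + 3) ≤ z := by
    rw [hz]
    have h1 : 2 * (2 * K + 3) ≤ K2 10 K := by
      unfold K2
      calc 2 * (2 * K + 3) ≤ 2 ^ (10 * K) := by
            have h2 : K < 2 ^ K := Nat.lt_two_pow_self
            have h3 : 2 ^ (10 * K) = 2 ^ K * (2 ^ K) ^ 9 := by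
              rw [← pow_mul, ← pow_add]; congr 1; ring
            have h4 : 2 ^ 9 ≤ (2 ^ K) ^ 9 := by
              apply Nat.pow_le_pow_left
              calc 2 = 2 ^ 1 := by norm_num
                _ ≤ 2 ^ K := Nat.pow_le_pow_right (by norm_num) hK
            rw [h3]
            have h5 : K * 2 ^ 9 ≤ 2 ^ K * (2 ^ K) ^ 9 := Nat.mul_le_mul h2.le h4
            omega
        _ ≤ 2 ^ (10 * K ^ 2) := by
            apply Nat.pow_le_pow_right (by norm_num)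
            nlinarith
    exact_mod_cast h1
  rw [hKK] at ht ⊢
  rw [← hq]
  have hK0 : (0 : ℝ) ≤ K := Nat.cast_nonneg _
  have hz0 : 6 ≤ z := by linarith
  have hq0 : 0 < q := by linarith
  have hz00 : 0 < z := by linarith
  have ht0 : 0 < t := lt_of_lt_of_le (by positivity) ht
  have h2q : 2 * q ≤ q * q * z := by
    have : 2 ≤ q * z := by nlinarith
    nlinarith
  have h7 : t / (q * q * z) ≤ t / (2 * q) :=
    div_le_div_of_nonneg_left ht0.le (by positivity) h2q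
  have h8 : t / q = 2 * (t / (2 * q)) := by field_simp
  have h9 : 2 * (K : ℝ) + 3 ≤ t / (2 * q) := by
    rw [le_div_iff₀ (by positivity)]
    have : (2 * (K : ℝ) + 3) * (2 * q) ≤ z * q := by nlinarith
    have h10 : z * q ≤ q * q * z := by nlinarith [mul_pos hq0 hz00]
    linarith
  have h11 : (2 : ℝ) ^ (2 * K + 3) ≤ Real.exp (2 * K + 3) := by
    have h12 : (2 : ℝ) ≤ Real.exp 1 := by
      have := Real.add_one_le_exp (1 : ℝ)
      linarith
    calc (2 : ℝ) ^ (2 * K + 3) ≤ (Real.exp 1) ^ (2 * K + 3) :=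
          pow_le_pow_left₀ (by norm_num) h12 _
      _ = Real.exp (2 * K + 3) := by
          rw [← Real.exp_nat_mul]
          congr 1
          push_cast
          ring
  calc 2 ^ (2 * K + 3) * Real.exp (-(t / q)) ≤ Real.exp (t / (2 * q)) * Real.exp (-(t / q)) := by
        apply mul_le_mul_of_nonneg_right _ (Real.exp_pos _).le
        exact h11.trans (Real.exp_le_exp.2 h9)
    _ = Real.exp (t / (2 * q) - t / q) := by
        rw [← Real.exp_add]; congr 1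
    _ ≤ Real.exp (-(t / (q * q * z))) := by
        apply Real.exp_le_exp.2
        linarith

theorem renew (hW : WordThm) :
    ∃ c : ℕ, ∀ (K : ℕ) (t : ℝ) (G : Set ℕ), 1 ≤ K → (K2 c K : ℝ) ≤ t →
      (∀ n, jugglerStep n ∈ G → n ∈ G) →
      ∑ p ∈ FP 1 K, (1 / 2) ^ p.1 / cc (wd p.2) p.1 * Lg G (cc (wd p.2) p.1 * t)
        - Real.exp (-(t / K2 c K)) ≤ Lg G t := by
  classical
  obtain ⟨c1, h1⟩ := word_window hW
  obtain ⟨c2, h2⟩ := fibre_lg
  obtain ⟨c', hc'⟩ : ∃ c' : ℕ, c' = max c1 c2 := ⟨_, rfl⟩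
  have hc1 : c1 ≤ c' := by rw [hc']; exact le_max_left _ _
  have hc2 : c2 ≤ c' := by rw [hc']; exact le_max_right _ _
  refine ⟨2 * c' + 10, fun K t G hK ht hG => ?_⟩
  have hK0 : (0 : ℝ) < K2 (2 * c' + 10) K := by exact_mod_cast K2_pos _ _
  have ht0 : 0 < t := lt_of_lt_of_le hK0 ht
  have hexp : ∀ (a k : ℕ), a ≤ c' → k ≤ K →
      Real.exp (-(t / K2 a k)) ≤ Real.exp (-(t / K2 c' K)) := by
    intro a k ha hk
    apply Real.exp_le_exp.2
    apply neg_le_neg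
    apply div_le_div_of_nonneg_left ht0.le
    · exact_mod_cast K2_pos _ _
    · exact_mod_cast K2_le ha hk
  have hterm : ∀ p ∈ FP 1 K, (1 / 2) ^ p.1 / cc (wd p.2) p.1 * Lg G (cc (wd p.2) p.1 * t) -
      2 * Real.exp (-(t / K2 c' K)) ≤
      Lg {n | F (wd p.2) p.1 n ∈ G ∧ Pat (wd p.2) (wd p.2) (range p.1) n} t := by
    intro p hp
    obtain ⟨q1, q2, q3, q4, q5⟩ := fp_one hp
    have hle : ∀ a, a ≤ c' → (K2 a p.1 : ℝ) ≤ t := by
      intro a ha
      refine le_trans ?_ ht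
      have : K2 a p.1 ≤ K2 (2 * c' + 10) K := K2_le (by omega) q2
      exact_mod_cast this
    have e1 := h1 p.1 (wd p.2) t G q1 q3 q5 (hle c1 hc1)
    have e2 := h2 p.1 (wd p.2) t G q1 q3 q5 q4 (hle c2 hc2)
    have e3 := hexp c1 p.1 hc1 q2
    have e4 := hexp c2 p.1 hc2 q2
    have hhalf0 : (0 : ℝ) < (1 / 2) ^ p.1 := by positivity
    have hhalf1 : ((1 : ℝ) / 2) ^ p.1 ≤ 1 := pow_le_one₀ (by norm_num) (by norm_num)
    have e5 := mul_le_mul_of_nonneg_left e2 hhalf0.le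
    have e6 : ((1 : ℝ) / 2) ^ p.1 * Real.exp (-(t / K2 c2 p.1)) ≤
        1 * Real.exp (-(t / K2 c2 p.1)) :=
      mul_le_mul_of_nonneg_right hhalf1 (Real.exp_pos _).le
    have e7 : (1 / 2) ^ p.1 / cc (wd p.2) p.1 * Lg G (cc (wd p.2) p.1 * t) =
        (1 / 2) ^ p.1 * (1 / cc (wd p.2) p.1 * Lg G (cc (wd p.2) p.1 * t)) := by ring
    rw [mul_sub] at e5
    rw [e7]
    linarith
  have hsum := (sum_le_sum hterm).trans (rn_disj K t G hG)
  rw [sum_sub_distrib, sum_const, nsmul_eq_mul] at hsum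
  have hnum := rn_num c' K hK t ht
  have hcard := rn_card K
  have hexp0 : 0 < Real.exp (-(t / K2 c' K)) := Real.exp_pos _
  have hfin : ((FP 1 K).card : ℝ) * (2 * Real.exp (-(t / K2 c' K))) ≤
      2 ^ (2 * K + 3) * Real.exp (-(t / K2 c' K)) := by
    have : (2 : ℝ) ^ (2 * K + 3) = 2 ^ (2 * K + 2) * 2 := by rw [← pow_succ]
    rw [this]
    nlinarith
  linarith

end Pool.Agent.Work.MP_215640_nt
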