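import Pool.Agent.Work.MP_215640_nt.U.WordG

/-!
MODULE WINDOW. The word theorem on the window `[e^t, e^(4t))`.

Let `c1` be the constant of `word_G`, `c = 2 c1 + 10`, `t ≥ K2 c k`, `N0 = ⌈e^t⌉₊`, `I` the least number with
`e^(4t) ≤ 2^I N0` (so `I ≤ 5 t + 2`: `2^(I-1) < e^(3t)`, `log 2 > 3/5`). The window is the disjoint union of
its intersections with the blocks `[2^i N0, 2^(i+1) N0)`, `i < I`; sum `word_G` over the blocks with
`a = e^t`, `b = e^(4t)` (`2^i N0 ≥ e^t ≥ 2^(K2 c1 k)` as `t ≥ K2 c1 k`). The error is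
`≤ I N0^(-1/K2 c1 k) ≤ (5t+2) exp(-t/K2 c1 k) ≤ exp(-t/K2 c k)`: with `q = K2 c1 k`, `K2 c k ≥ 1024 q^2`,
`t/q - t/K2 c k ≥ t/(2q) ≥ sqrt t / 2` and `5t + 2 ≤ exp(sqrt t/2)` for `t ≥ 1024`
(e.g. `exp x ≥ x^4/24`, with `x = sqrt t/2 ≥ 16`).
-/

set_option autoImplicit false

namespace Pool.Agent.Work.MP_215640_nt

open Finset Polynomial Filter

open Classical in
private theorem ww_blocks (g : ℕ → ℝ) (N0 I : ℕ) :
    ∑ n ∈ Ico N0 (2 ^ I * N0), g n
      = ∑ i ∈ range I, ∑ n ∈ Ico (2 ^ i * N0) (2 * (2 ^ i * N0)), g n := by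
  induction I with
  | zero => simp
  | succ I ih =>
    rw [sum_range_succ, ← ih, show 2 ^ (I + 1) * N0 = 2 * (2 ^ I * N0) by ring]
    refine (sum_Ico_consecutive g ?_ ?_).symm
    · exact Nat.le_mul_of_pos_left _ (by positivity)
    · exact Nat.le_mul_of_pos_left _ (by norm_num)

open Classical in
private noncomputable def wwS (P : Set ℕ) (t : ℝ) (N : ℕ) : ℝ :=
  ∑ n ∈ (Ico N (2 * N)).filter
      (fun n : ℕ => Real.exp t ≤ n ∧ (n : ℝ) < Real.exp (4 * t) ∧ n ∈ P), (1 : ℝ) / n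

open Classical in
private theorem ww_split (P : Set ℕ) (t : ℝ) (N0 I : ℕ) (hN0 : N0 = ⌈Real.exp t⌉₊)
    (hI : Real.exp (4 * t) ≤ ((2 ^ I * N0 : ℕ) : ℝ)) :
    Lg P t = ∑ i ∈ range I, wwS P t (2 ^ i * N0) := by
  unfold wwS
  simp only [sum_filter]
  rw [← ww_blocks, ← sum_filter]
  unfold Lg
  refine sum_congr ?_ fun _ _ => rfl
  ext n
  simp only [mem_filter, mem_range, mem_Ico, Nat.lt_ceil]
  constructor
  · rintro ⟨h2, h3, h4⟩
    refine ⟨⟨?_, ?_⟩, h4, h2, h3⟩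
    · rw [hN0]; exact Nat.ceil_le.2 h4
    · exact_mod_cast h2.trans_le hI
  · rintro ⟨_, h4, h2, h3⟩
    exact ⟨h2, h3, h4⟩

theorem word_window (hW : WordThm) :
    ∃ c : ℕ, ∀ (k : ℕ) (w : ℕ → Bool) (t : ℝ) (G : Set ℕ), 1 ≤ k → Posw w k →
      cc w k < 1 → (K2 c k : ℝ) ≤ t →
      (1 / 2) ^ k * Lg {n | F w k n ∈ G} t - Real.exp (-(t / K2 c k)) ≤
        Lg {n | F w k n ∈ G ∧ Pat w w (range k) n} t := by
  classical
  obtain ⟨c1, hc1⟩ := word_G hW
  refine ⟨c1 + (c1 + 10), fun k w t G hk hw hcc ht => ?_⟩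
  set q : ℕ := K2 c1 k with hq
  have hq1 : 1 ≤ q := K2_pos c1 k
  have hQ : K2 (c1 + (c1 + 10)) k = q * (q * K2 10 k) := by rw [K2_add, K2_add]
  have h10 : 1024 ≤ K2 10 k := by
    unfold K2
    calc 1024 = 2 ^ (10 * 1) := by norm_num
      _ ≤ 2 ^ (10 * k ^ 2) := Nat.pow_le_pow_right (by norm_num)
          (Nat.mul_le_mul_left _ (Nat.one_le_pow _ _ hk))
  have hqR : (1 : ℝ) ≤ q := by exact_mod_cast hq1
  have hq0 : (0 : ℝ) < q := by linarith
  have h10R : (1024 : ℝ) ≤ (K2 10 k : ℝ) := by exact_mod_cast h10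
  rw [hQ] at ht ⊢
  push_cast at ht ⊢
  set Q : ℝ := (q : ℝ) * (q * (K2 10 k : ℝ)) with hQdef
  have hQ1 : 1024 * (q : ℝ) ^ 2 ≤ Q := by
    rw [hQdef]; nlinarith [mul_le_mul_of_nonneg_left h10R (sq_nonneg (q : ℝ))]
  have hQ2 : 2 * (q : ℝ) ≤ Q := by nlinarith
  have hQ0 : 0 < Q := by nlinarith
  have ht0 : 0 < t := by linarith
  have htq : (q : ℝ) ≤ t := by nlinarith
  set N0 : ℕ := ⌈Real.exp t⌉₊ with hN0
  have hN0' : Real.exp t ≤ N0 := Nat.le_ceil _
  set I : ℕ := ⌈5 * t⌉₊ with hIdef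
  have hI1 : 5 * t ≤ I := Nat.le_ceil _
  have hI2 : (I : ℝ) < 5 * t + 1 := Nat.ceil_lt_add_one (by positivity)
  have hlog : (0.6931471803 : ℝ) < Real.log 2 := Real.log_two_gt_d9
  have h2I : Real.exp (3 * t) ≤ (2 : ℝ) ^ I := by
    have : (2 : ℝ) ^ I = Real.exp (Real.log 2 * I) := by
      rw [Real.exp_mul, Real.exp_log (by norm_num), Real.rpow_natCast]
    rw [this, Real.exp_le_exp]
    nlinarith
  have hI : Real.exp (4 * t) ≤ ((2 ^ I * N0 : ℕ) : ℝ) := by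
    push_cast
    have : Real.exp (4 * t) = Real.exp (3 * t) * Real.exp t := by
      rw [← Real.exp_add]; congr 1; ring
    rw [this]
    exact mul_le_mul h2I hN0' (Real.exp_pos _).le (by positivity)
  have hN0q : 2 ^ q ≤ N0 := by
    have h1 : ((2 ^ q : ℕ) : ℝ) ≤ Real.exp t := by
      push_cast
      have : (2 : ℝ) ^ q = Real.exp (Real.log 2 * q) := by
        rw [Real.exp_mul, Real.exp_log (by norm_num), Real.rpow_natCast]
      rw [this, Real.exp_le_exp]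
      have h2 : Real.log 2 ≤ 1 := by
        have := Real.log_two_lt_d9
        linarith
      nlinarith
    exact_mod_cast h1.trans hN0'
  rw [ww_split {n | F w k n ∈ G} t N0 I hN0 hI,
    ww_split {n | F w k n ∈ G ∧ Pat w w (range k) n} t N0 I hN0 hI]
  have hterm : ∀ i ∈ range I,
      (1 / 2) ^ k * wwS {n | F w k n ∈ G} t (2 ^ i * N0) - Real.exp (-(t / q)) ≤
      wwS {n | F w k n ∈ G ∧ Pat w w (range k) n} t (2 ^ i * N0) := by
    intro i _
    have hle : N0 ≤ 2 ^ i * N0 := Nat.le_mul_of_pos_left _ (by positivity)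
    have h1 := hc1 k w (2 ^ i * N0) G (Real.exp t) (Real.exp (4 * t)) hk hw hcc (hN0q.trans hle)
    have h2 : (((2 ^ i * N0 : ℕ) : ℝ)) ^ (-(1 / (K2 c1 k : ℝ))) ≤ Real.exp (-(t / q)) := by
      have h3 : Real.exp (-(t / q)) = (Real.exp t) ^ (-(1 / (q : ℝ))) := by
        rw [← Real.exp_mul]; congr 1; ring
      rw [h3, ← hq]
      apply Real.rpow_le_rpow_of_nonpos (Real.exp_pos _)
      · exact hN0'.trans (by exact_mod_cast hle)
      · have : 0 < 1 / (q : ℝ) := by positivity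
        linarith
    have h4 : ∀ x y z : ℝ, x - (((2 ^ i * N0 : ℕ) : ℝ)) ^ (-(1 / (K2 c1 k : ℝ))) ≤ y →
        x - Real.exp (-(t / q)) ≤ y := fun x y _ hxy => by linarith
    have h5 := h4 _ _ 0 h1
    unfold wwS
    convert h5 using 4
    · ext n
      simp only [mem_filter, Set.mem_setOf_eq]
    · simp only [Set.mem_setOf_eq]
  have hsum := sum_le_sum hterm
  rw [sum_sub_distrib, sum_const, card_range, nsmul_eq_mul, ← mul_sum] at hsum
  have herr : (I : ℝ) * Real.exp (-(t / q)) ≤ Real.exp (-(t / Q)) := by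
    set y : ℝ := t / (2 * q) with hy
    have hty : t = 2 * q * y := by rw [hy]; field_simp
    have hy1 : 512 * (q : ℝ) ≤ y := by
      rw [hy, le_div_iff₀ (by positivity)]
      nlinarith
    have hy0 : 0 < y := by linarith
    have hty2 : t ≤ y ^ 2 / 256 := by
      rw [hty]; nlinarith
    have h1 : (I : ℝ) ≤ Real.exp y := by
      have h2 := Real.quadratic_le_exp_of_nonneg hy0.le
      nlinarith [sq_nonneg y]
    have h3 : Real.exp (-(t / q)) = Real.exp (-y) * Real.exp (-y) := by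
      rw [← Real.exp_add]; congr 1; rw [hy]; field_simp; ring
    have h4 : Real.exp (-y) ≤ Real.exp (-(t / Q)) := by
      rw [Real.exp_le_exp, neg_le_neg_iff, hy]
      exact div_le_div_of_nonneg_left ht0.le (by positivity) hQ2
    rw [h3, ← mul_assoc]
    calc (I : ℝ) * Real.exp (-y) * Real.exp (-y) ≤ Real.exp y * Real.exp (-y) * Real.exp (-y) := by
          gcongr
      _ = Real.exp (-y) := by rw [← Real.exp_add, add_neg_cancel, Real.exp_zero, one_mul]
      _ ≤ _ := h4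
  linarith

end Pool.Agent.Work.MP_215640_nt
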