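import Pool.Agent.Work.MP_215640_nt.U.Word

/-!
MODULE WORDG. The word theorem with weights `1/n` and a set of values of the last level.

`F_mono`, `F_le_rpow`: induction on `k` (`F_succ`, floor and rpow are monotone, `(n^c)^e = n^(c e)`).

`change_card`: the indicator of `g (n+h) ≠ g n` is at most `g (n+h) - g n`, and
`∑_{N ≤ n < M} g (n+h) = ∑_{N+h ≤ n < M+h} g n ≤ ∑_{N ≤ n < M} g n + ∑_{M ≤ n < M+h} g n`, the last sum
being at most `h g(M+h)`.

`word_G`: apply `hW` (constant `c0`) to `f n = N/n` if `N ≤ n`, `a ≤ n < b`, `F w k n ∈ G`, and `f n = 0`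
otherwise (`0 ≤ f ≤ 1`). Let `h ≤ N^(2^-(k+2))` and `n ∈ [N, 2N)`: if `F w k`, the indicator of `a ≤ n` and
that of `n < b` take the same values at `n` and `n + h` then `|f(n+h) - f n| ≤ N/n - N/(n+h) ≤ h/N`. By
`change_card` with `M = 2N` (`g = F w k` and the two 0-1 valued monotone functions)
`∑ |f(n+h) - f n| ≤ h F w k (2N+h) + 2h + h`, and `F w k (2N+h) ≤ (3N)^(cc w k) ≤ 3 N^(1 - 2^-k)`
(`cc_le_of_lt_one`). So `δ = 6 N^(- 3/2^(k+2))` works. Divide the conclusion of `hW` by `N`: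
`f n ind w k n = N (1/n) [...]`, and `3 δ + N^(-1/K2 c0 k) ≤ N^(-1/K2 c k)` for `c = c0 + 5` since
`x = N^(1/K2 c k) ≥ 2`, `N^(-3/2^(k+2)) = x^(-3 K2 c k/2^(k+2)) ≤ x^(-12)`, `K2 c k ≥ 32 K2 c0 k`.
-/

set_option autoImplicit false

namespace Pool.Agent.Work.MP_215640_nt

open Finset Polynomial Filter

theorem F_mono (w : ℕ → Bool) (k : ℕ) : Monotone (F w k) := by
  induction k with
  | zero =>
    intro m n h
    rw [F_zero, F_zero]
    exact h
  | succ k ih =>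
    intro m n h
    rw [F_succ, F_succ]
    exact Nat.floor_mono (Real.rpow_le_rpow (Nat.cast_nonneg _) (by exact_mod_cast ih h)
      (ex_pos _).le)

theorem F_le_rpow (w : ℕ → Bool) (k n : ℕ) : (F w k n : ℝ) ≤ (n : ℝ) ^ cc w k := by
  induction k with
  | zero => rw [F_zero, cc_zero, Real.rpow_one]
  | succ k ih =>
    rw [F_succ, cc_succ, Real.rpow_mul (Nat.cast_nonneg _)]
    exact (Nat.floor_le (by positivity)).trans
      (Real.rpow_le_rpow (Nat.cast_nonneg _) ih (ex_pos _).le)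

theorem change_card (g : ℕ → ℕ) (hg : Monotone g) (N M h : ℕ) (hNM : N ≤ M) :
    ((Ico N M).filter (fun n => g (n + h) ≠ g n)).card ≤ h * g (M + h) := by
  have h1 : ((Ico N M).filter (fun n => g (n + h) ≠ g n)).card + ∑ n ∈ Ico N M, g n ≤
      ∑ n ∈ Ico N M, g (n + h) := by
    rw [card_filter, ← sum_add_distrib]
    apply sum_le_sum
    intro n _
    have h2 := hg (Nat.le_add_right n h)
    split_ifs with h3
    · omega
    · omega
  have h2 : ∑ n ∈ Ico N M, g (n + h) ≤ ∑ n ∈ Ico N M, g n + h * g (M + h) := by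
    have h3 : ∑ n ∈ Ico N M, g (n + h) = ∑ n ∈ Ico (N + h) (M + h), g n := by
      rw [← sum_Ico_add' g N M h]
    have h4 : ∑ n ∈ Ico (N + h) (M + h), g n ≤ ∑ n ∈ Ico N (M + h), g n :=
      sum_le_sum_of_subset (Ico_subset_Ico (Nat.le_add_right _ _) le_rfl)
    have h5 : ∑ n ∈ Ico N (M + h), g n = ∑ n ∈ Ico N M, g n + ∑ n ∈ Ico M (M + h), g n :=
      (sum_Ico_consecutive g hNM (Nat.le_add_right _ _)).symm
    have h6 : ∑ n ∈ Ico M (M + h), g n ≤ h * g (M + h) := by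
      have h7 : ∑ n ∈ Ico M (M + h), g n ≤ ∑ n ∈ Ico M (M + h), g (M + h) :=
        sum_le_sum fun n hn => hg (mem_Ico.1 hn).2.le
      rw [sum_const, Nat.card_Ico, smul_eq_mul, Nat.add_sub_cancel_left] at h7
      exact h7
    omega
  omega

private theorem ite_iff {p q : Prop} [Decidable p] [Decidable q] {a b : ℕ} (hab : a ≠ b)
    (h : (if p then a else b) = if q then a else b) : p ↔ q := by
  by_cases hp : p <;> by_cases hq : q <;> simp_all

open Classical in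
theorem word_G (hW : WordThm) :
    ∃ c : ℕ, ∀ (k : ℕ) (w : ℕ → Bool) (N : ℕ) (G : Set ℕ) (a b : ℝ), 1 ≤ k → Posw w k →
      cc w k < 1 → 2 ^ K2 c k ≤ N →
      (1 / 2) ^ k * ∑ n ∈ (Ico N (2 * N)).filter
          (fun n : ℕ => a ≤ n ∧ (n : ℝ) < b ∧ F w k n ∈ G), (1 : ℝ) / n
        - (N : ℝ) ^ (-(1 / (K2 c k : ℝ))) ≤
      ∑ n ∈ (Ico N (2 * N)).filter
          (fun n : ℕ => a ≤ n ∧ (n : ℝ) < b ∧ F w k n ∈ G ∧ Pat w w (range k) n), (1 : ℝ) / n := by
  obtain ⟨c0, hc0⟩ := hW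
  refine ⟨c0 + 5, ?_⟩
  intro k w N G a b hk hw hck hN
  have hN1 : 1 ≤ N := le_trans Nat.one_le_two_pow hN
  have hNpos : (0 : ℝ) < N := by exact_mod_cast hN1
  have hN1' : (1 : ℝ) ≤ N := by exact_mod_cast hN1
  -- the function
  set f : ℕ → ℝ := fun n => if N ≤ n ∧ a ≤ n ∧ (n : ℝ) < b ∧ F w k n ∈ G then (N : ℝ) / n else 0
    with hf
  have hf0 : ∀ n, 0 ≤ f n := by
    intro n
    simp only [hf]
    split_ifs <;> positivity
  have hf1 : ∀ n, f n ≤ 1 := by
    intro n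
    simp only [hf]
    split_ifs with h
    · have h1 : (N : ℝ) ≤ n := by exact_mod_cast h.1
      rw [div_le_one (by linarith)]
      exact h1
    · norm_num
  set δ : ℝ := 6 * (N : ℝ) ^ (-(3 * (1 / 2 : ℝ) ^ (k + 2))) with hδ
  have hδ0 : 0 ≤ δ := by positivity
  have hvar : ∀ h : ℕ, (h : ℝ) ≤ (N : ℝ) ^ ((1 / 2 : ℝ) ^ (k + 2)) →
      ∑ n ∈ Ico N (2 * N), |f (n + h) - f n| ≤ δ * N := by
    intro h hh
    have hhN : h ≤ N := by
      have h1 : (N : ℝ) ^ ((1 / 2 : ℝ) ^ (k + 2)) ≤ (N : ℝ) ^ (1 : ℝ) :=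
        Real.rpow_le_rpow_of_exponent_le hN1' (pow_le_one₀ (by norm_num) (by norm_num))
      rw [Real.rpow_one] at h1
      exact_mod_cast hh.trans h1
    -- three monotone functions
    set g1 : ℕ → ℕ := fun n => if a ≤ (n : ℝ) then 1 else 0 with hg1
    set g2 : ℕ → ℕ := fun n => if (n : ℝ) < b then 0 else 1 with hg2
    have hg1m : Monotone g1 := by
      intro m n hmn
      have : (m : ℝ) ≤ n := by exact_mod_cast hmn
      simp only [hg1]
      split_ifs <;> first | omega | linarith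
    have hg2m : Monotone g2 := by
      intro m n hmn
      have : (m : ℝ) ≤ n := by exact_mod_cast hmn
      simp only [hg2]
      split_ifs <;> first | omega | linarith
    have hc1 := change_card (F w k) (F_mono w k) N (2 * N) h (by omega)
    have hc2 := change_card g1 hg1m N (2 * N) h (by omega)
    have hc3 := change_card g2 hg2m N (2 * N) h (by omega)
    have hg1' : g1 (2 * N + h) ≤ 1 := by simp only [hg1]; split_ifs <;> omega
    have hg2' : g2 (2 * N + h) ≤ 1 := by simp only [hg2]; split_ifs <;> omega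
    have hpt : ∀ n ∈ Ico N (2 * N), |f (n + h) - f n| ≤
        ((if F w k (n + h) ≠ F w k n then (1 : ℝ) else 0) + (if g1 (n + h) ≠ g1 n then 1 else 0) +
        (if g2 (n + h) ≠ g2 n then 1 else 0)) + h / N := by
      intro n hn
      rw [mem_Ico] at hn
      have hnN : (N : ℝ) ≤ n := by exact_mod_cast hn.1
      have hb1 : |f (n + h) - f n| ≤ 1 := by
        rw [abs_le]
        constructor
        · linarith [hf0 (n + h), hf1 n]
        · linarith [hf1 (n + h), hf0 n]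
      have hhN0 : (0 : ℝ) ≤ h / N := by positivity
      by_cases e1 : F w k (n + h) ≠ F w k n
      · rw [if_pos e1]
        have : (0 : ℝ) ≤ (if g1 (n + h) ≠ g1 n then 1 else 0) := by split_ifs <;> norm_num
        have : (0 : ℝ) ≤ (if g2 (n + h) ≠ g2 n then 1 else 0) := by split_ifs <;> norm_num
        linarith
      rw [if_neg e1]
      by_cases e2 : g1 (n + h) ≠ g1 n
      · rw [if_pos e2]
        have : (0 : ℝ) ≤ (if g2 (n + h) ≠ g2 n then 1 else 0) := by split_ifs <;> norm_num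
        linarith
      rw [if_neg e2]
      by_cases e3 : g2 (n + h) ≠ g2 n
      · rw [if_pos e3]
        linarith
      rw [if_neg e3]
      push Not at e1 e2 e3
      have e2' : a ≤ ((n + h : ℕ) : ℝ) ↔ a ≤ (n : ℝ) := ite_iff (by norm_num) e2
      have e3' : ((n + h : ℕ) : ℝ) < b ↔ (n : ℝ) < b := ite_iff (by norm_num) e3
      simp only [hf]
      have hn0 : (0 : ℝ) < n := by linarith
      have hh0 : (0 : ℝ) ≤ h := Nat.cast_nonneg _
      by_cases hc : N ≤ n ∧ a ≤ (n : ℝ) ∧ (n : ℝ) < b ∧ F w k n ∈ G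
      · have hc' : N ≤ n + h ∧ a ≤ ((n + h : ℕ) : ℝ) ∧ ((n + h : ℕ) : ℝ) < b ∧ F w k (n + h) ∈ G :=
          ⟨by omega, e2'.2 hc.2.1, e3'.2 hc.2.2.1, by rw [e1]; exact hc.2.2.2⟩
        rw [if_pos hc, if_pos hc']
        have h1 : (N : ℝ) / ((n + h : ℕ) : ℝ) ≤ N / n := by
          push_cast
          exact div_le_div_of_nonneg_left hNpos.le hn0 (by linarith)
        rw [abs_sub_comm, abs_of_nonneg (by linarith), zero_add, zero_add, zero_add]
        push_cast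
        rw [div_sub_div _ _ hn0.ne' (by positivity), div_le_div_iff₀ (by positivity) hNpos]
        have h2 : (N : ℝ) * (n + h) - n * N = N * h := by ring
        rw [h2]
        have h3 : (N : ℝ) * h * N ≤ n * h * n := by
          calc (N : ℝ) * h * N = h * (N * N) := by ring
            _ ≤ h * (n * n) := by gcongr
            _ = n * h * n := by ring
        nlinarith [mul_nonneg hh0 (mul_nonneg hn0.le hh0)]
      · have hc' : ¬ (N ≤ n + h ∧ a ≤ ((n + h : ℕ) : ℝ) ∧ ((n + h : ℕ) : ℝ) < b ∧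
            F w k (n + h) ∈ G) :=
          fun h' => hc ⟨hn.1, e2'.1 h'.2.1, e3'.1 h'.2.2.1, by rw [← e1]; exact h'.2.2.2⟩
        rw [if_neg hc, if_neg hc', sub_self, abs_zero]
        positivity
    have hsum := sum_le_sum hpt
    rw [sum_add_distrib, sum_add_distrib, sum_add_distrib, sum_boole, sum_boole, sum_boole,
      sum_const, Nat.card_Ico, nsmul_eq_mul] at hsum
    have hF : ((F w k (2 * N + h) : ℕ) : ℝ) ≤ 3 * (N : ℝ) ^ (1 - (1 / 2 : ℝ) ^ k) := by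
      have h1 := F_le_rpow w k (2 * N + h)
      have h2 : ((2 * N + h : ℕ) : ℝ) ≤ 3 * N := by
        have : ((h : ℕ) : ℝ) ≤ N := by exact_mod_cast hhN
        push_cast
        linarith
      have hcp := cc_pos w k
      calc ((F w k (2 * N + h) : ℕ) : ℝ) ≤ ((2 * N + h : ℕ) : ℝ) ^ cc w k := h1
        _ ≤ (3 * (N : ℝ)) ^ cc w k := Real.rpow_le_rpow (Nat.cast_nonneg _) h2 hcp.le
        _ = 3 ^ cc w k * (N : ℝ) ^ cc w k := Real.mul_rpow (by norm_num) hNpos.le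
        _ ≤ 3 ^ (1 : ℝ) * (N : ℝ) ^ (1 - (1 / 2 : ℝ) ^ k) := by
            apply mul_le_mul
            · exact Real.rpow_le_rpow_of_exponent_le (by norm_num) hck.le
            · exact Real.rpow_le_rpow_of_exponent_le hN1' (cc_le_of_lt_one w k hck)
            · positivity
            · positivity
        _ = 3 * (N : ℝ) ^ (1 - (1 / 2 : ℝ) ^ k) := by rw [Real.rpow_one]
    have hc1' : (((Ico N (2 * N)).filter (fun n => F w k (n + h) ≠ F w k n)).card : ℝ) ≤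
        h * (3 * (N : ℝ) ^ (1 - (1 / 2 : ℝ) ^ k)) := by
      have h1 : (((Ico N (2 * N)).filter (fun n => F w k (n + h) ≠ F w k n)).card : ℝ) ≤
          h * (F w k (2 * N + h) : ℕ) := by exact_mod_cast hc1
      exact h1.trans (mul_le_mul_of_nonneg_left hF (Nat.cast_nonneg _))
    have hc2' : (((Ico N (2 * N)).filter (fun n => g1 (n + h) ≠ g1 n)).card : ℝ) ≤ h := by
      have : ((Ico N (2 * N)).filter (fun n => g1 (n + h) ≠ g1 n)).card ≤ h :=
        hc2.trans (by nlinarith)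
      exact_mod_cast this
    have hc3' : (((Ico N (2 * N)).filter (fun n => g2 (n + h) ≠ g2 n)).card : ℝ) ≤ h := by
      have : ((Ico N (2 * N)).filter (fun n => g2 (n + h) ≠ g2 n)).card ≤ h :=
        hc3.trans (by nlinarith)
      exact_mod_cast this
    have hlast : ((2 * N - N : ℕ) : ℝ) * (h / N) = h := by
      have : 2 * N - N = N := by omega
      rw [this]
      field_simp
    rw [hlast] at hsum
    have hone : (1 : ℝ) ≤ (N : ℝ) ^ (1 - (1 / 2 : ℝ) ^ k) := by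
      apply Real.one_le_rpow hN1'
      have : (1 / 2 : ℝ) ^ k ≤ 1 := pow_le_one₀ (by norm_num) (by norm_num)
      linarith
    have hh0 : (0 : ℝ) ≤ h := Nat.cast_nonneg _
    have htot : ∑ n ∈ Ico N (2 * N), |f (n + h) - f n| ≤
        h * (6 * (N : ℝ) ^ (1 - (1 / 2 : ℝ) ^ k)) := by
      refine hsum.trans ?_
      nlinarith
    refine htot.trans ?_
    calc (h : ℝ) * (6 * (N : ℝ) ^ (1 - (1 / 2 : ℝ) ^ k))
        ≤ (N : ℝ) ^ ((1 / 2 : ℝ) ^ (k + 2)) * (6 * (N : ℝ) ^ (1 - (1 / 2 : ℝ) ^ k)) := by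
          gcongr
      _ = 6 * ((N : ℝ) ^ ((1 / 2 : ℝ) ^ (k + 2)) * (N : ℝ) ^ (1 - (1 / 2 : ℝ) ^ k)) := by ring
      _ = 6 * ((N : ℝ) ^ (-(3 * (1 / 2 : ℝ) ^ (k + 2))) * (N : ℝ) ^ (1 : ℝ)) := by
          rw [← Real.rpow_add hNpos, ← Real.rpow_add hNpos]
          congr 2
          rw [pow_add]
          ring
      _ = δ * N := by rw [Real.rpow_one, hδ]; ring
  have hmain := hc0 k w N f δ hk hw
    (le_trans (Nat.pow_le_pow_right (by norm_num) (K2_le (by omega) le_rfl)) hN) hf0 hf1 hδ0 hvar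
  -- the sums
  have hs1 : ∑ n ∈ Ico N (2 * N), f n = N * ∑ n ∈ (Ico N (2 * N)).filter
      (fun n : ℕ => a ≤ n ∧ (n : ℝ) < b ∧ F w k n ∈ G), (1 : ℝ) / n := by
    rw [sum_filter, mul_sum]
    apply sum_congr rfl
    intro n hn
    rw [mem_Ico] at hn
    simp only [hf]
    by_cases hc : a ≤ n ∧ (n : ℝ) < b ∧ F w k n ∈ G
    · rw [if_pos ⟨hn.1, hc⟩, if_pos hc]
      ring
    · rw [if_neg (fun h => hc h.2), if_neg hc, mul_zero]
  have hs2 : ∑ n ∈ Ico N (2 * N), f n * ind w k n = N * ∑ n ∈ (Ico N (2 * N)).filter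
      (fun n : ℕ => a ≤ n ∧ (n : ℝ) < b ∧ F w k n ∈ G ∧ Pat w w (range k) n), (1 : ℝ) / n := by
    rw [sum_filter, mul_sum]
    apply sum_congr rfl
    intro n hn
    rw [mem_Ico] at hn
    simp only [hf, ind]
    by_cases hp : Pat w w (range k) n
    · rw [if_pos hp, mul_one]
      by_cases hc : a ≤ n ∧ (n : ℝ) < b ∧ F w k n ∈ G
      · rw [if_pos ⟨hn.1, hc⟩, if_pos ⟨hc.1, hc.2.1, hc.2.2, hp⟩]
        ring
      · rw [if_neg (fun h => hc h.2), if_neg (fun h => hc ⟨h.1, h.2.1, h.2.2.1⟩), mul_zero]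
    · rw [if_neg hp, mul_zero]
      rw [if_neg (fun h => hp h.2.2.2), mul_zero]
  rw [hs1, hs2] at hmain
  -- the error
  have herr : 3 * δ + (N : ℝ) ^ (-(1 / (K2 c0 k : ℝ))) ≤
      (N : ℝ) ^ (-(1 / (K2 (c0 + 5) k : ℝ))) := by
    have hQ := K2_pos (c0 + 5) k
    have hQ' : (0 : ℝ) < (K2 (c0 + 5) k : ℝ) := by exact_mod_cast hQ
    set x : ℝ := (N : ℝ) ^ (1 / (K2 (c0 + 5) k : ℝ)) with hx
    have hx2 : 2 ≤ x := by
      have h1 : ((2 : ℝ) ^ (K2 (c0 + 5) k : ℝ)) ≤ N := by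
        rw [Real.rpow_natCast]
        exact_mod_cast hN
      have h2 := Real.rpow_le_rpow (by positivity) h1 (show 0 ≤ 1 / (K2 (c0 + 5) k : ℝ) by positivity)
      rw [← Real.rpow_mul (by norm_num), mul_one_div_cancel hQ'.ne', Real.rpow_one] at h2
      exact h2
    have hx0 : 0 < x := by linarith
    have hpow : ∀ s : ℝ, (N : ℝ) ^ (-s) = x ^ (-(s * K2 (c0 + 5) k)) := by
      intro s
      rw [hx, ← Real.rpow_mul hNpos.le]
      congr 1
      field_simp
    have e1 : (N : ℝ) ^ (-(1 / (K2 (c0 + 5) k : ℝ))) = x⁻¹ := by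
      rw [hpow, one_div_mul_cancel hQ'.ne', Real.rpow_neg_one]
    have e2 : (N : ℝ) ^ (-(1 / (K2 c0 k : ℝ))) ≤ x⁻¹ ^ 4 := by
      rw [hpow, inv_pow, ← Real.rpow_natCast, ← Real.rpow_neg hx0.le]
      apply Real.rpow_le_rpow_of_exponent_le (by linarith)
      apply neg_le_neg
      have h1 := K2_pos c0 k
      have h1' : (0 : ℝ) < (K2 c0 k : ℝ) := by exact_mod_cast h1
      have h2 : (4 : ℝ) ≤ (K2 5 k : ℝ) := by
        have h3 : 2 ^ (5 * k) ≤ K2 5 k := two_pow_le_K2 hk le_rfl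
        have h4 : 2 ^ 2 ≤ 2 ^ (5 * k) := Nat.pow_le_pow_right (by norm_num) (by omega)
        have : 4 ≤ K2 5 k := by omega
        exact_mod_cast this
      rw [K2_add]
      push_cast
      rw [← mul_assoc, one_div_mul_cancel h1'.ne', one_mul]
      exact h2
    have e3 : (N : ℝ) ^ (-(3 * (1 / 2 : ℝ) ^ (k + 2))) ≤ x⁻¹ ^ 7 := by
      rw [hpow, inv_pow, ← Real.rpow_natCast x 7, ← Real.rpow_neg hx0.le]
      apply Real.rpow_le_rpow_of_exponent_le (by linarith)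
      apply neg_le_neg
      have h2 : (4 : ℝ) * 2 ^ (k + 2) ≤ 3 * (K2 (c0 + 5) k : ℝ) := by
        have h3 : 2 ^ (5 * k) ≤ K2 (c0 + 5) k := two_pow_le_K2 hk (by omega)
        have h4 : 2 ^ (k + 4) ≤ 2 ^ (5 * k) := Nat.pow_le_pow_right (by norm_num) (by omega)
        have h5 : 4 * 2 ^ (k + 2) ≤ K2 (c0 + 5) k := by
          calc 4 * 2 ^ (k + 2) = 2 ^ (k + 4) := by ring
            _ ≤ _ := h4.trans h3
        have h6 : (4 : ℝ) * 2 ^ (k + 2) ≤ (K2 (c0 + 5) k : ℝ) := by exact_mod_cast h5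
        linarith
      push_cast
      have h7 : (3 * (1 / 2 : ℝ) ^ (k + 2)) * (K2 (c0 + 5) k : ℝ) =
          3 * (K2 (c0 + 5) k : ℝ) / 2 ^ (k + 2) := by
        rw [one_div, inv_pow]
        field_simp
      rw [h7, le_div_iff₀ (by positivity)]
      have h3 : 2 ^ (5 * k) ≤ K2 (c0 + 5) k := two_pow_le_K2 hk (by omega)
      have h4 : 2 ^ (k + 4) ≤ 2 ^ (5 * k) := Nat.pow_le_pow_right (by norm_num) (by omega)
      have h5 : 4 * 2 ^ (k + 2) ≤ K2 (c0 + 5) k := by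
        calc 4 * 2 ^ (k + 2) = 2 ^ (k + 4) := by ring
          _ ≤ _ := h4.trans h3
      have h6 : (4 : ℝ) * 2 ^ (k + 2) ≤ (K2 (c0 + 5) k : ℝ) := by exact_mod_cast h5
      linarith
    rw [e1]
    have hy0 : 0 < x⁻¹ := by positivity
    have hy1 : x⁻¹ ≤ 1 / 2 := by
      rw [one_div]
      exact inv_anti₀ (by norm_num) hx2
    have hδ2 : δ ≤ 6 * x⁻¹ ^ 7 := by
      rw [hδ]
      linarith
    have h4 : x⁻¹ ^ 4 ≤ 1 / 8 * x⁻¹ := by
      calc x⁻¹ ^ 4 = x⁻¹ ^ 3 * x⁻¹ := by ring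
        _ ≤ (1 / 2) ^ 3 * x⁻¹ := by gcongr
        _ = 1 / 8 * x⁻¹ := by norm_num
    have h7 : x⁻¹ ^ 7 ≤ 1 / 64 * x⁻¹ := by
      calc x⁻¹ ^ 7 = x⁻¹ ^ 6 * x⁻¹ := by ring
        _ ≤ (1 / 2) ^ 6 * x⁻¹ := by gcongr
        _ = 1 / 64 * x⁻¹ := by norm_num
    nlinarith
  set S1 := ∑ n ∈ (Ico N (2 * N)).filter
      (fun n : ℕ => a ≤ n ∧ (n : ℝ) < b ∧ F w k n ∈ G), (1 : ℝ) / n with hS1
  set S2 := ∑ n ∈ (Ico N (2 * N)).filter
      (fun n : ℕ => a ≤ n ∧ (n : ℝ) < b ∧ F w k n ∈ G ∧ Pat w w (range k) n), (1 : ℝ) / n with hS2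
  have hfin : N * ((1 / 2) ^ k * S1 - (N : ℝ) ^ (-(1 / (K2 (c0 + 5) k : ℝ)))) ≤ N * S2 := by
    refine le_trans ?_ hmain
    have h1 := mul_le_mul_of_nonneg_left herr hNpos.le
    have h2 : (1 / 2 : ℝ) ^ k * ((N : ℝ) * S1) = N * ((1 / 2) ^ k * S1) := by ring
    rw [h2]
    nlinarith
  exact le_of_mul_le_mul_left hfin hNpos

end Pool.Agent.Work.MP_215640_nt
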